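import Mathlib

/-!
The random graph process on `[n]`, Builder's strategies, and the `k`-nearest neighbour graph.
-/

namespace Q299.MDB

open Finset

/-- The edges of the complete graph on `[n]`. -/
abbrev Edge (n : ℕ) := {e : Sym2 (Fin n) // ¬ e.IsDiag}

/-- An order of the edges: `σ 0, σ 1, ...` are the edges `e_1, e_2, ...`. -/
abbrev Ord (n : ℕ) := Fin (Fintype.card (Edge n)) ≃ Edge n

variable {n : ℕ}

/-- Degree of `v` in the graph with edge set `A`. -/
def deg (A : Finset (Edge n)) (v : Fin n) : ℕ := #{e ∈ A | v ∈ e.1}

/-- Position of the edge `e` in the order `σ` (counted from `0`). -/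
def pos (σ : Ord n) (e : Edge n) : ℕ := σ.symm e

/-- The graph `G_t`: the first `t` edges. -/
def G (σ : Ord n) (t : ℕ) : Finset (Edge n) := univ.filter fun e => pos σ e < t

/-- The hitting time `τ_k` of minimum degree at least `k`. -/
noncomputable def hit (k : ℕ) (σ : Ord n) : ℕ := sInf {t : ℕ | ∀ v, k ≤ deg (G σ t) v}

/-- Builder's graph `B_s` after `s` edges have been shown, when he buys the shown edge `e` if and
only if `f e B = true`, where `B` is his current graph. The decision does not depend on anything
else (not even on the number of edges shown so far). -/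
def built (f : Edge n → Finset (Edge n) → Bool) (σ : Ord n) : ℕ → Finset (Edge n)
  | 0 => ∅
  | s + 1 =>
    if h : s < Fintype.card (Edge n) then
      if f (σ ⟨s, h⟩) (built f σ s) then insert (σ ⟨s, h⟩) (built f σ s) else built f σ s
    else built f σ s

/-- The `k`-nearest neighbour graph `O_k` when the lengths of the edges are ordered as in `σ`:
the edges preceded by fewer than `k` edges at one of their ends. -/
def knn (k : ℕ) (σ : Ord n) : Finset (Edge n) :=
  univ.filter fun e => ∃ v, v ∈ e.1 ∧ deg (G σ (pos σ e)) v < k

/-- Probability when the order is uniformly random. -/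
noncomputable def prob (n : ℕ) (A : Ord n → Prop) : ℝ :=
  (Nat.card {σ : Ord n // A σ} : ℝ) / Nat.card (Ord n)

end Q299.MDB
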