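import Pool.Agent.Q299.MDB.Defs

/-!
Deterministic part: accounting of the bought edges.
-/

namespace Q299.MDB

open Finset

variable {n : ℕ}

lemma deg_mono {A B : Finset (Edge n)} (h : A ⊆ B) (v : Fin n) : deg A v ≤ deg B v :=
  card_le_card (filter_subset_filter _ h)

lemma pos_lt (σ : Ord n) (e : Edge n) : pos σ e < Fintype.card (Edge n) := (σ.symm e).2

lemma pos_inj {σ : Ord n} {e e' : Edge n} (h : pos σ e = pos σ e') : e = e' := by
  have : σ.symm e = σ.symm e' := Fin.ext h
  exact σ.symm.injective this

lemma pos_apply (σ : Ord n) (s : ℕ) (h : s < Fintype.card (Edge n)) : pos σ (σ ⟨s, h⟩) = s := by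
  unfold pos; simp

lemma apply_pos (σ : Ord n) (e : Edge n) : σ ⟨pos σ e, pos_lt σ e⟩ = e := by
  have : (⟨pos σ e, pos_lt σ e⟩ : Fin (Fintype.card (Edge n))) = σ.symm e := rfl
  rw [this, Equiv.apply_symm_apply]

lemma mem_G {σ : Ord n} {t : ℕ} {e : Edge n} : e ∈ G σ t ↔ pos σ e < t := by
  unfold G; simp

lemma G_mono (σ : Ord n) {s t : ℕ} (h : s ≤ t) : G σ s ⊆ G σ t := by
  intro e he
  rw [mem_G] at he ⊢
  omega

lemma mem_built {f : Edge n → Finset (Edge n) → Bool} {σ : Ord n} {s : ℕ} {e : Edge n} :
    e ∈ built f σ s ↔ pos σ e < s ∧ f e (built f σ (pos σ e)) = true := by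
  induction s with
  | zero => simp [built]
  | succ s ih =>
    rw [built]
    split_ifs with h hf
    · rw [mem_insert, ih]
      constructor
      · rintro (rfl | ⟨h1, h2⟩)
        · rw [pos_apply]
          exact ⟨by omega, hf⟩
        · exact ⟨by omega, h2⟩
      · rintro ⟨h1, h2⟩
        rcases Nat.lt_or_ge (pos σ e) s with h3 | h3
        · exact Or.inr ⟨h3, h2⟩
        · left
          have : pos σ e = s := by omega
          apply pos_inj (σ := σ)
          rw [pos_apply, this]
    · rw [ih]
      constructor
      · rintro ⟨h1, h2⟩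
        exact ⟨by omega, h2⟩
      · rintro ⟨h1, h2⟩
        refine ⟨?_, h2⟩
        rcases Nat.lt_or_ge (pos σ e) s with h3 | h3
        · exact h3
        · exfalso
          have h4 : pos σ e = s := by omega
          have h5 : e = σ ⟨s, h⟩ := by
            apply pos_inj (σ := σ)
            rw [pos_apply, h4]
          rw [h4, h5] at h2
          exact hf h2
    · rw [ih]
      have := pos_lt σ e
      constructor
      · rintro ⟨h1, h2⟩
        exact ⟨by omega, h2⟩
      · rintro ⟨h1, h2⟩
        exact ⟨by omega, h2⟩

lemma built_subset_G (f : Edge n → Finset (Edge n) → Bool) (σ : Ord n) (s : ℕ) :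
    built f σ s ⊆ G σ s := by
  intro e he
  exact mem_G.mpr (mem_built.mp he).1

lemma built_mono (f : Edge n → Finset (Edge n) → Bool) (σ : Ord n) {s t : ℕ} (h : s ≤ t) :
    built f σ s ⊆ built f σ t := by
  intro e he
  rw [mem_built] at he ⊢
  exact ⟨by omega, he.2⟩

lemma built_le_full (f : Edge n → Finset (Edge n) → Bool) (σ : Ord n) (s : ℕ) :
    built f σ s ⊆ built f σ (Fintype.card (Edge n)) := by
  intro e he
  rw [mem_built] at he ⊢
  exact ⟨pos_lt σ e, he.2⟩

/-- The rule: while fewer than `M` edges are bought, buy an edge if both ends have degree less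
than `k`; afterwards, buy it if at least one end has degree less than `k`. -/
def rule (k M : ℕ) (e : Edge n) (A : Finset (Edge n)) : Bool :=
  decide ((A.card < M ∧ ∀ v, v ∈ e.1 → deg A v < k) ∨ (M ≤ A.card ∧ ∃ v, v ∈ e.1 ∧ deg A v < k))

/-- The rule with budget `b`. -/
def ruleb (k M b : ℕ) (e : Edge n) (A : Finset (Edge n)) : Bool :=
  rule k M e A && decide (A.card + 1 ≤ b)

lemma card_ruleb_le (k M b : ℕ) (σ : Ord n) (s : ℕ) : (built (ruleb k M b) σ s).card ≤ b := by
  induction s with
  | zero => simp [built]
  | succ s ih =>
    rw [built]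
    split_ifs with h hf
    · unfold ruleb at hf
      rw [Bool.and_eq_true, decide_eq_true_iff] at hf
      exact (card_insert_le _ _).trans hf.2
    · exact ih
    · exact ih

lemma ruleb_eq {k M b : ℕ} {σ : Ord n}
    (hb : (built (rule k M) σ (Fintype.card (Edge n))).card ≤ b) (s : ℕ) :
    built (ruleb k M b) σ s = built (rule k M) σ s := by
  induction s with
  | zero => rfl
  | succ s ih =>
    rw [built, built]
    split_ifs with h h1 h2 h2
    · rw [ih]
    · exfalso
      rw [ih] at h1
      unfold ruleb at h1
      rw [Bool.and_eq_true] at h1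
      exact h2 h1.1
    · exfalso
      apply h1
      rw [ih]
      unfold ruleb
      rw [Bool.and_eq_true, decide_eq_true_iff]
      refine ⟨h2, ?_⟩
      have h3 : σ ⟨s, h⟩ ∉ built (rule k M) σ s := by
        intro hc
        have := (mem_built.mp hc).1
        rw [pos_apply] at this
        omega
      rw [← card_insert_of_notMem h3]
      refine le_trans (card_le_card ?_) hb
      have h4 : insert (σ ⟨s, h⟩) (built (rule k M) σ s) = built (rule k M) σ (s + 1) := by
        rw [built, dif_pos h, if_pos h2]
      rw [h4]
      exact built_le_full _ _ _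
    · exact ih
    · exact ih

lemma exists_mem (e : Edge n) : ∃ v, v ∈ e.1 := by
  obtain ⟨e, he⟩ := e
  induction e with
  | _ u v => exact ⟨u, Sym2.mem_mk_left u v⟩

lemma rule_of_both {k M : ℕ} {e : Edge n} {A : Finset (Edge n)}
    (h : ∀ v, v ∈ e.1 → deg A v < k) : rule k M e A = true := by
  unfold rule
  rw [decide_eq_true_iff]
  rcases Nat.lt_or_ge A.card M with h1 | h1
  · exact Or.inl ⟨h1, h⟩
  · obtain ⟨v, hv⟩ := exists_mem e
    exact Or.inr ⟨h1, v, hv, h v hv⟩

lemma exists_of_rule {k M : ℕ} {e : Edge n} {A : Finset (Edge n)} (h : rule k M e A = true) :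
    ∃ v, v ∈ e.1 ∧ deg A v < k := by
  unfold rule at h
  rw [decide_eq_true_iff] at h
  rcases h with ⟨_, h⟩ | ⟨_, h⟩
  · obtain ⟨v, hv⟩ := exists_mem e
    exact ⟨v, hv, h v hv⟩
  · exact h

lemma card_ends (e : Edge n) : (univ.filter fun v => v ∈ e.1).card = 2 := by
  obtain ⟨e, he⟩ := e
  induction e with
  | _ u v =>
    rw [Sym2.mk_isDiag_iff] at he
    have : (univ.filter fun w => w ∈ s(u, v)) = {u, v} := by ext w; simp
    simp only
    rw [this]
    exact card_pair he

/-- edges with two deficient ends in Builder's graph -/
def both (k : ℕ) (H : Edge n → Finset (Edge n)) (C : Finset (Edge n)) : Finset (Edge n) :=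
  C.filter fun e => ∀ v, v ∈ e.1 → deg (H e) v < k

/-- double counting -/
lemma count_ends (k : ℕ) (H : Edge n → Finset (Edge n)) (C : Finset (Edge n))
    (hC : ∀ e ∈ C, ∃ v, v ∈ e.1 ∧ deg (H e) v < k) :
    C.card + (both k H C).card = ∑ v : Fin n, (C.filter fun e => v ∈ e.1 ∧ deg (H e) v < k).card := by
  have h1 : ∑ v : Fin n, (C.filter fun e => v ∈ e.1 ∧ deg (H e) v < k).card
      = ∑ e ∈ C, (univ.filter fun v => v ∈ e.1 ∧ deg (H e) v < k).card := by
    simp only [card_filter]
    rw [sum_comm]
  rw [h1]
  have h2 : ∀ e ∈ C, (univ.filter fun v => v ∈ e.1 ∧ deg (H e) v < k).card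
      = 1 + if ∀ v, v ∈ e.1 → deg (H e) v < k then 1 else 0 := by
    intro e he
    have hc := card_ends e
    have hsub : (univ.filter fun v => v ∈ e.1 ∧ deg (H e) v < k)
        ⊆ univ.filter fun v => v ∈ e.1 := by
      intro v hv
      exact mem_filter.mpr ⟨mem_univ _, (mem_filter.mp hv).2.1⟩
    split_ifs with h
    · have : (univ.filter fun v => v ∈ e.1 ∧ deg (H e) v < k) = univ.filter fun v => v ∈ e.1 := by
        refine filter_congr fun v _ => ?_
        exact ⟨fun h' => h'.1, fun h' => ⟨h', h v h'⟩⟩
      rw [this, hc]
    · push Not at h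
      obtain ⟨v0, hv0, hv0'⟩ := h
      obtain ⟨v1, hv1, hv1'⟩ := hC e he
      have hlt : (univ.filter fun v => v ∈ e.1 ∧ deg (H e) v < k).card
          < (univ.filter fun v => v ∈ e.1).card := by
        refine card_lt_card ⟨hsub, ?_⟩
        intro hs
        have := hs (mem_filter.mpr ⟨mem_univ v0, hv0⟩)
        have := (mem_filter.mp this).2.2
        omega
      have hpos : 0 < (univ.filter fun v => v ∈ e.1 ∧ deg (H e) v < k).card :=
        card_pos.mpr ⟨v1, mem_filter.mpr ⟨mem_univ _, hv1, hv1'⟩⟩
      omega
  rw [sum_congr rfl h2, sum_add_distrib]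
  unfold both
  rw [card_filter]
  simp

/-- Builder buys at most `nk` minus the number of edges bought with two deficient ends. -/
lemma card_built_le (k M : ℕ) (σ : Ord n) :
    (built (rule k M) σ (Fintype.card (Edge n))).card
      + (both k (fun e => built (rule k M) σ (pos σ e))
        (built (rule k M) σ (Fintype.card (Edge n)))).card ≤ n * k := by
  rw [count_ends]
  · calc _ ≤ ∑ _v : Fin n, k := by
          refine sum_le_sum fun v _ => ?_
          have : ((built (rule k M) σ (Fintype.card (Edge n))).filter fun e => v ∈ e.1 ∧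
              deg (built (rule k M) σ (pos σ e)) v < k).card ≤ (range k).card := by
            refine card_le_card_of_injOn (fun e => deg (built (rule k M) σ (pos σ e)) v) ?_ ?_
            · intro e he
              have he' := (mem_filter.mp (mem_coe.mp he)).2.2
              exact mem_coe.mpr (mem_range.mpr he')
            · have key : ∀ e e' : Edge n, e ∈ built (rule k M) σ (Fintype.card (Edge n)) →
                  v ∈ e.1 → pos σ e < pos σ e' →
                  deg (built (rule k M) σ (pos σ e)) v < deg (built (rule k M) σ (pos σ e')) v := by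
                intro e e' he hv hlt
                unfold deg
                refine card_lt_card ⟨filter_subset_filter _ (built_mono _ _ hlt.le), ?_⟩
                intro hs
                have h1 : e ∈ (built (rule k M) σ (pos σ e')).filter fun e => v ∈ e.1 :=
                  mem_filter.mpr ⟨mem_built.mpr ⟨hlt, (mem_built.mp he).2⟩, hv⟩
                have h2 := (mem_filter.mp (hs h1)).1
                exact absurd (mem_built.mp h2).1 (lt_irrefl _)
              intro e he e' he' heq
              have h1 := mem_filter.mp (mem_coe.mp he)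
              have h2 := mem_filter.mp (mem_coe.mp he')
              simp only at heq
              rcases lt_trichotomy (pos σ e) (pos σ e') with h | h | h
              · exact absurd heq (key e e' h1.1 h1.2.1 h).ne
              · exact pos_inj h
              · exact absurd heq (key e' e h2.1 h2.2.1 h).ne'
          rwa [card_range] at this
      _ = n * k := by simp
  · intro e he
    exact exists_of_rule (mem_built.mp he).2

/-- number of edges at a vertex -/
lemma card_star (v : Fin n) : n - 1 ≤ (univ.filter fun e : Edge n => v ∈ e.1).card := by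
  have h1 : (univ.erase v).attach.card = n - 1 := by
    rw [card_attach, card_erase_of_mem (mem_univ v), card_univ, Fintype.card_fin]
  rw [← h1]
  refine card_le_card_of_injOn (fun u => ⟨s(v, u.1), by
    rw [Sym2.mk_isDiag_iff]; exact (ne_of_mem_erase u.2).symm⟩) ?_ ?_
  · intro u _
    exact mem_coe.mpr (mem_filter.mpr ⟨mem_univ _, Sym2.mem_mk_left v u.1⟩)
  · intro u _ u' _ heq
    simp only [Subtype.mk.injEq] at heq
    exact Subtype.ext (Sym2.congr_right.mp heq)

/-- The `k`-nearest neighbour graph has at least `nk` minus the number of edges that are among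
the first `k` at both ends. -/
lemma card_knn_ge (k : ℕ) (hk : k ≤ n - 1) (σ : Ord n) :
    n * k ≤ (knn k σ).card + (both k (fun e => G σ (pos σ e)) (knn k σ)).card := by
  rw [count_ends]
  · calc n * k = ∑ _v : Fin n, k := by simp
      _ ≤ _ := by
          refine sum_le_sum fun v _ => ?_
          have hfil : ((knn k σ).filter fun e => v ∈ e.1 ∧ deg (G σ (pos σ e)) v < k)
              = univ.filter fun e : Edge n => v ∈ e.1 ∧ deg (G σ (pos σ e)) v < k := by
            ext e
            unfold knn
            simp only [mem_filter, mem_univ, true_and]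
            exact ⟨fun h => h.2, fun h => ⟨⟨v, h.1, h.2⟩, h⟩⟩
          rw [hfil]
          by_cases hall : ∀ e : Edge n, v ∈ e.1 → deg (G σ (pos σ e)) v < k
          · have : (univ.filter fun e : Edge n => v ∈ e.1 ∧ deg (G σ (pos σ e)) v < k)
                = univ.filter fun e : Edge n => v ∈ e.1 :=
              filter_congr fun e _ => ⟨fun h => h.1, fun h => ⟨h, hall e h⟩⟩
            rw [this]
            exact hk.trans (card_star v)
          · push Not at hall
            -- minimal position among the others
            have hne : (univ.filter fun e : Edge n => v ∈ e.1 ∧ k ≤ deg (G σ (pos σ e)) v).Nonempty := by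
              obtain ⟨e, he, he'⟩ := hall
              exact ⟨e, mem_filter.mpr ⟨mem_univ _, he, he'⟩⟩
            obtain ⟨e, he, hmin⟩ := exists_min_image _ (fun e => pos σ e) hne
            obtain ⟨_, hev, hek⟩ := mem_filter.mp he
            refine hek.trans ?_
            unfold deg
            refine card_le_card fun e' he' => ?_
            obtain ⟨h1, h2⟩ := mem_filter.mp he'
            rw [mem_G] at h1
            refine mem_filter.mpr ⟨mem_univ _, h2, ?_⟩
            by_contra hcon
            push Not at hcon
            have := hmin e' (mem_filter.mpr ⟨mem_univ _, h2, hcon⟩)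
            omega
  · intro e he
    unfold knn at he
    exact (mem_filter.mp he).2

end Q299.MDB
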