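import Pool.Agent.Q299.MDB.Gad

/-!
Gadgets save edges; the rule succeeds at the hitting time unless an unlikely event occurs.
-/

namespace Q299.MDB

open Finset Gd

variable {n k M : ℕ} {σ : Ord n} {ω : Sym2 (Fin n) → Fin 6}

/-- compatibility of the order with the levels -/
def Comp (σ : Ord n) (ω : Sym2 (Fin n) → Fin 6) : Prop :=
  ∀ e e' : Edge n, pos σ e ≤ pos σ e' → ω e.1 ≤ ω e'.1

lemma pos_lt_of_lev (hm : Comp σ ω) {e e' : Edge n} (h : ω e.1 < ω e'.1) :
    pos σ e < pos σ e' := by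
  by_contra hcon
  push Not at hcon
  exact absurd (hm e' e hcon) (not_le.mpr h)

/-- Builder's graph when `e` is shown -/
abbrev Hb (k M : ℕ) (σ : Ord n) (e : Edge n) : Finset (Edge n) := built (rule k M) σ (pos σ e)

lemma Hb_subset (k M : ℕ) (σ : Ord n) (e : Edge n) : Hb k M σ e ⊆ G σ (pos σ e) :=
  built_subset_G _ _ _

lemma card_Hb_lt (hm : Comp σ ω) (hM : (univ.filter fun e : Edge n => ω e.1 ≤ 2).card ≤ M)
    {e : Edge n} (he : ω e.1 ≤ 2) : (Hb k M σ e).card < M := by
  refine lt_of_lt_of_le (card_lt_card (t := univ.filter fun e : Edge n => ω e.1 ≤ 2) ⟨?_, ?_⟩) hM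
  · intro e' he'
    have h1 := mem_G.mp (Hb_subset k M σ e he')
    exact mem_filter.mpr ⟨mem_univ _, (hm e' e h1.le).trans he⟩
  · intro hs
    have h1 : e ∈ Hb k M σ e := hs (mem_filter.mpr ⟨mem_univ _, he⟩)
    exact absurd (mem_built.mp h1).1 (lt_irrefl _)

lemma card_le_of_image {C : Finset (Edge n)} {u : Fin n} {A : Finset (Fin n)}
    (h : ∀ e ∈ C, ∃ a ∈ A, e.1 = s(u, a)) : C.card ≤ A.card := by
  calc C.card = (C.image fun e => e.1).card := (card_image_of_injective _ Subtype.val_injective).symm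
    _ ≤ (A.image fun a => s(u, a)).card := by
        refine card_le_card fun e he => ?_
        obtain ⟨e', he', rfl⟩ := mem_image.mp he
        obtain ⟨a, ha, hea⟩ := h e' he'
        exact mem_image.mpr ⟨a, ha, hea.symm⟩
    _ ≤ A.card := card_image_le

lemma le_card_of_image {C : Finset (Edge n)} {u : Fin n} {A : Finset (Fin n)}
    (h : ∀ a ∈ A, ∃ e ∈ C, e.1 = s(u, a)) : A.card ≤ C.card := by
  calc A.card = (A.image fun a => s(u, a)).card := by
        refine (card_image_of_injective _ fun a a' haa => ?_).symm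
        exact Sym2.congr_right.mp haa
    _ ≤ (C.image fun e => e.1).card := by
        refine card_le_card fun e he => ?_
        obtain ⟨a, ha, rfl⟩ := mem_image.mp he
        obtain ⟨e, he, hea⟩ := h a ha
        exact mem_image.mpr ⟨e, he, hea⟩
    _ ≤ C.card := card_image_le

lemma exists_other {e : Edge n} {v : Fin n} (h : v ∈ e.1) : ∃ w, v ≠ w ∧ e.1 = s(v, w) := by
  obtain ⟨w, hw⟩ := Sym2.mem_iff_exists.mp h
  refine ⟨w, ?_, hw⟩
  have := e.2
  rw [hw, Sym2.mk_isDiag_iff] at this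
  exact this

/-- The edge gained from a gadget. -/
lemma gadget_gain {θ : Gd n} (hk : 1 ≤ k) (hv : θ.Valid k) (h : θ.ev ω) (hm : Comp σ ω)
    (hM : (univ.filter fun e : Edge n => ω e.1 ≤ 2).card ≤ M) :
    ∃ z : Edge n, (∃ x ∈ θ.X, z.1 = s(θ.c, x)) ∧ rule k M z (Hb k M σ z) = true ∧
      (∀ v, v ∈ z.1 → deg (Hb k M σ z) v < k) ∧ k ≤ deg (G σ (pos σ z)) θ.c := by
  classical
  -- the leaf edges of `b`
  have hA : ∀ a ∈ θ.A, ∃ e : Edge n, e.1 = s(θ.b, a) ∧ ω e.1 = 0 ∧
      rule k M e (Hb k M σ e) = true := by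
    intro a ha
    have hne : θ.b ≠ a := fun h2 => hv.bA (h2 ▸ ha)
    obtain ⟨e, he⟩ : ∃ e : Edge n, e.1 = s(θ.b, a) :=
      ⟨⟨s(θ.b, a), by rw [Sym2.mk_isDiag_iff]; exact hne⟩, rfl⟩
    have hω : ω e.1 = 0 := by
      rw [he]
      rcases lev_b hv h hne with h2 | h2 | h2
      · exact h2.2
      · exact absurd (h2.1 ▸ ha) hv.cA
      · exact absurd ha h2.1
    refine ⟨e, he, hω, rule_of_both fun v hve => ?_⟩
    rw [he, Sym2.mem_iff] at hve
    refine lt_of_le_of_lt (deg_mono (Hb_subset k M σ e) v) ?_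
    rcases hve with rfl | rfl
    · unfold deg
      refine lt_of_le_of_lt (card_le_of_image (u := θ.b) (A := θ.A.erase a) fun e' he' => ?_) ?_
      · obtain ⟨h1, h2⟩ := mem_filter.mp he'
        rw [mem_G] at h1
        obtain ⟨w, hw, hew⟩ := exists_other h2
        have h3 : ω e'.1 ≤ ω e.1 := hm e' e h1.le
        rw [hω, hew] at h3
        refine ⟨w, mem_erase.mpr ⟨?_, ?_⟩, hew⟩
        · rintro rfl
          have : e' = e := Subtype.ext (hew.trans he.symm)
          rw [this] at h1; exact absurd h1 (lt_irrefl _)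
        · rcases lev_b hv h hw with h4 | h4 | h4
          · exact h4.1
          · rw [h4.2] at h3; exact absurd h3 (by decide)
          · exact absurd (h4.2.2.trans h3) (by decide)
      · rw [card_erase_of_mem ha, hv.cardA]; omega
    · have : deg (G σ (pos σ e)) v = 0 := by
        unfold deg
        rw [card_eq_zero, filter_eq_empty_iff]
        intro e' h1 h2
        rw [mem_G] at h1
        obtain ⟨w, hw, hew⟩ := exists_other h2
        have h3 : ω e'.1 ≤ ω e.1 := hm e' e h1.le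
        rw [hω, hew] at h3
        rcases lev_A hv h ha hw with h4 | h4
        · have : e' = e := Subtype.ext (by rw [hew, he, h4.1]; exact Sym2.eq_swap)
          rw [this] at h1; exact absurd h1 (lt_irrefl _)
        · exact absurd (h4.2.trans h3) (by decide)
      omega
  -- the middle edge is not bought
  obtain ⟨m, hme⟩ : ∃ m : Edge n, m.1 = s(θ.b, θ.c) :=
    ⟨⟨s(θ.b, θ.c), by rw [Sym2.mk_isDiag_iff]; exact hv.bc⟩, rfl⟩
  have hωm : ω m.1 = 1 := by
    rw [hme]
    rcases lev_b hv h hv.bc with h2 | h2 | h2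
    · exact absurd h2.1 hv.cA
    · exact h2.2
    · exact absurd rfl h2.2.1
  have hmnot : ¬ rule k M m (Hb k M σ m) = true := by
    intro hr
    unfold rule at hr
    rw [decide_eq_true_iff] at hr
    have hlt := card_Hb_lt (k := k) hm hM (e := m) (by rw [hωm]; decide)
    have hdeg : k ≤ deg (Hb k M σ m) θ.b := by
      unfold deg
      refine hv.cardA.symm.le.trans ?_
      refine le_card_of_image (u := θ.b) fun a ha => ?_
      obtain ⟨e, he, hω, hr'⟩ := hA a ha
      refine ⟨e, mem_filter.mpr ⟨mem_built.mpr ⟨?_, hr'⟩, ?_⟩, he⟩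
      · exact pos_lt_of_lev hm (by rw [hω, hωm]; decide)
      · rw [he]; exact Sym2.mem_mk_left _ _
    rcases hr with ⟨_, h2⟩ | ⟨h2, _⟩
    · have := h2 θ.b (by rw [hme]; exact Sym2.mem_mk_left _ _)
      omega
    · omega
  -- the leaf edges of `c`
  have hX : ∀ x ∈ θ.X, ∃ e : Edge n, e.1 = s(θ.c, x) ∧ ω e.1 = 2 ∧
      (∀ v, v ∈ e.1 → deg (Hb k M σ e) v < k) := by
    intro x hx
    have hne : θ.c ≠ x := fun h2 => hv.cX (h2 ▸ hx)
    obtain ⟨e, he⟩ : ∃ e : Edge n, e.1 = s(θ.c, x) :=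
      ⟨⟨s(θ.c, x), by rw [Sym2.mk_isDiag_iff]; exact hne⟩, rfl⟩
    have hω : ω e.1 = 2 := by
      rw [he]
      rcases lev_c hv h hne with h2 | h2 | h2
      · exact h2.2
      · exact absurd (h2.1 ▸ hx) hv.bX
      · exact absurd hx h2.1
    refine ⟨e, he, hω, fun v hve => ?_⟩
    rw [he, Sym2.mem_iff] at hve
    rcases hve with rfl | rfl
    · unfold deg
      refine lt_of_le_of_lt (card_le_of_image (u := θ.c) (A := θ.X.erase x) fun e' he' => ?_) ?_
      · obtain ⟨h1, h2⟩ := mem_filter.mp he'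
        obtain ⟨h1a, h1b⟩ := mem_built.mp h1
        obtain ⟨w, hw, hew⟩ := exists_other h2
        have h3 : ω e'.1 ≤ ω e.1 := hm e' e h1a.le
        rw [hω, hew] at h3
        refine ⟨w, mem_erase.mpr ⟨?_, ?_⟩, hew⟩
        · rintro rfl
          have : e' = e := Subtype.ext (hew.trans he.symm)
          rw [this] at h1a; exact absurd h1a (lt_irrefl _)
        · rcases lev_c hv h hw with h4 | h4 | h4
          · exact h4.1
          · exfalso
            have : e' = m := Subtype.ext (by rw [hew, hme, h4.1]; exact Sym2.eq_swap)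
            rw [this] at h1b
            exact hmnot h1b
          · exact absurd (h4.2.2.trans h3) (by decide)
      · rw [card_erase_of_mem hx, hv.cardX]; omega
    · have : deg (Hb k M σ e) v = 0 := by
        unfold deg
        rw [card_eq_zero, filter_eq_empty_iff]
        intro e' h1 h2
        have h1a := (mem_built.mp h1).1
        obtain ⟨w, hw, hew⟩ := exists_other h2
        have h3 : ω e'.1 ≤ ω e.1 := hm e' e h1a.le
        rw [hω, hew] at h3
        rcases lev_X hv h hx hw with h4 | h4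
        · have : e' = e := Subtype.ext (by rw [hew, he, h4.1]; exact Sym2.eq_swap)
          rw [this] at h1a; exact absurd h1a (lt_irrefl _)
        · exact absurd (h4.2.trans h3) (by decide)
      omega
  -- the last one
  have hne : (univ.filter fun e : Edge n => ∃ x ∈ θ.X, e.1 = s(θ.c, x)).Nonempty := by
    obtain ⟨x, hx⟩ : θ.X.Nonempty := by rw [← card_pos, hv.cardX]; omega
    obtain ⟨e, he, _⟩ := hX x hx
    exact ⟨e, mem_filter.mpr ⟨mem_univ _, x, hx, he⟩⟩
  obtain ⟨z, hz, hmax⟩ := exists_max_image _ (fun e => pos σ e) hne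
  obtain ⟨_, x, hx, hzx⟩ := mem_filter.mp hz
  obtain ⟨e, he, hω, hdef⟩ := hX x hx
  have hez : e = z := Subtype.ext (he.trans hzx.symm)
  rw [hez] at hω hdef
  refine ⟨z, ⟨x, hx, hzx⟩, rule_of_both hdef, hdef, ?_⟩
  -- `c` has `k` earlier edges
  have hins : (insert θ.b (θ.X.erase x)).card = k := by
    rw [card_insert_of_notMem (fun h2 => hv.bX (mem_of_mem_erase h2)), card_erase_of_mem hx,
      hv.cardX]
    omega
  rw [← hins]
  unfold deg
  refine le_card_of_image (u := θ.c) fun w hw => ?_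
  rcases mem_insert.mp hw with rfl | hw
  · refine ⟨m, mem_filter.mpr ⟨mem_G.mpr ?_, ?_⟩, ?_⟩
    · exact pos_lt_of_lev hm (by rw [hω, hωm]; decide)
    · rw [hme]; exact Sym2.mem_mk_right _ _
    · rw [hme]; exact Sym2.eq_swap
  · obtain ⟨hwx, hwX⟩ := mem_erase.mp hw
    obtain ⟨e', he', _, _⟩ := hX w hwX
    refine ⟨e', mem_filter.mpr ⟨mem_G.mpr ?_, ?_⟩, he'⟩
    · have h1 := hmax e' (mem_filter.mpr ⟨mem_univ _, w, hwX, he'⟩)
      refine lt_of_le_of_ne h1 fun h2 => hwx ?_
      have h3 : e' = z := pos_inj h2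
      rw [h3, hzx] at he'
      exact (Sym2.congr_right.mp he').symm
    · rw [he']; exact Sym2.mem_mk_left _ _

/-- **Accounting.** -/
theorem card_built_add_le {Θ : Finset (Gd n)} (hk : 1 ≤ k) (hkn : k ≤ n - 1)
    (hΘ : ∀ θ ∈ Θ, θ.Valid k) (hm : Comp σ ω)
    (hM : (univ.filter fun e : Edge n => ω e.1 ≤ 2).card ≤ M) [DecidablePred fun θ : Gd n => θ.ev ω] :
    (built (rule k M) σ (Fintype.card (Edge n))).card + (Θ.filter fun θ => θ.ev ω).card
      ≤ (knn k σ).card := by
  classical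
  have h1 := card_built_le (n := n) k M σ
  have h2 := card_knn_ge k hkn σ
  set N := Fintype.card (Edge n) with hN
  set bA := both k (fun e => built (rule k M) σ (pos σ e)) (built (rule k M) σ N) with hbA
  set bG := both k (fun e => G σ (pos σ e)) (knn k σ) with hbG
  have hsub : bG ⊆ bA := by
    intro e he
    obtain ⟨_, h3⟩ := mem_filter.mp he
    have h4 : ∀ v, v ∈ e.1 → deg (built (rule k M) σ (pos σ e)) v < k := fun v hv =>
      lt_of_le_of_lt (deg_mono (built_subset_G _ _ _) v) (h3 v hv)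
    exact mem_filter.mpr ⟨mem_built.mpr ⟨pos_lt σ e, rule_of_both h4⟩, h4⟩
  have hinj : (Θ.filter fun θ => θ.ev ω).card ≤ (bA \ bG).card := by
    have hgain : ∀ θ : {θ // θ ∈ Θ.filter fun θ => θ.ev ω}, ∃ z : Edge n,
        (∃ x ∈ θ.1.X, z.1 = s(θ.1.c, x)) ∧ rule k M z (Hb k M σ z) = true ∧
        (∀ v, v ∈ z.1 → deg (Hb k M σ z) v < k) ∧ k ≤ deg (G σ (pos σ z)) θ.1.c := by
      intro θ
      obtain ⟨h3, h4⟩ := mem_filter.mp θ.2
      exact gadget_gain hk (hΘ _ h3) h4 hm hM
    choose z hz1 hz2 hz3 hz4 using hgain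
    rw [← card_attach]
    refine card_le_card_of_injOn z ?_ ?_
    · intro θ _
      refine mem_coe.mpr (mem_sdiff.mpr ⟨?_, ?_⟩)
      · exact mem_filter.mpr ⟨mem_built.mpr ⟨pos_lt σ _, hz2 θ⟩, hz3 θ⟩
      · intro hc
        have h3 : deg (G σ (pos σ (z θ))) θ.1.c < k := (mem_filter.mp hc).2 θ.1.c (by
          obtain ⟨x, _, hx⟩ := hz1 θ
          rw [hx]; exact Sym2.mem_mk_left _ _)
        have := hz4 θ
        omega
    · intro θ _ θ' _ heq
      obtain ⟨h3, h4⟩ := mem_filter.mp θ.2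
      obtain ⟨h3', h4'⟩ := mem_filter.mp θ'.2
      obtain ⟨x, hx, hxe⟩ := hz1 θ
      obtain ⟨x', hx', hxe'⟩ := hz1 θ'
      rw [heq, hxe'] at hxe
      refine Subtype.ext (eq_of_meet hk (hΘ _ h3) h4 (hΘ _ h3') h4' (v := θ.1.c)
        (mem_V.mpr (Or.inr (Or.inl rfl))) ?_)
      rw [Sym2.eq_iff] at hxe
      rcases hxe with ⟨h5, _⟩ | ⟨_, h5⟩
      · exact mem_V.mpr (Or.inr (Or.inl h5.symm))
      · rw [← h5]
        exact mem_V.mpr (Or.inr (Or.inr (Or.inr hx')))
  have hcard : (bA \ bG).card + bG.card = bA.card := by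
    rw [card_sdiff_add_card_eq_card hsub]
  omega

/-- isolated edges among the levels at most `3` -/
def isoE (ω : Sym2 (Fin n) → Fin 6) : Finset (Edge n) :=
  univ.filter fun e => ω e.1 ≤ 3 ∧ ∀ e' : Edge n, e' ≠ e → (∃ v, v ∈ e.1 ∧ v ∈ e'.1) → 4 ≤ ω e'.1

lemma hit_spec (hkn : k ≤ n - 1) (σ : Ord n) : ∀ v, k ≤ deg (G σ (hit k σ)) v := by
  have hne : {t : ℕ | ∀ v, k ≤ deg (G σ t) v}.Nonempty := by
    refine ⟨Fintype.card (Edge n), fun v => ?_⟩
    refine hkn.trans ((card_star v).trans ?_)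
    unfold deg
    refine card_le_card fun e he => ?_
    exact mem_filter.mpr ⟨mem_G.mpr (pos_lt σ e), (mem_filter.mp he).2⟩
  exact Nat.sInf_mem hne

/-- **Success.** -/
theorem success (hk : 1 ≤ k) (hkn : k ≤ n - 1) (hm : Comp σ ω) (h2 : M ≤ (isoE ω).card)
    (h3 : ∃ w, (univ.filter fun e : Edge n => w ∈ e.1 ∧ ω e.1 ≤ 4).card < k)
    (h4 : ∀ v, (∃ e : Edge n, v ∈ e.1 ∧ ω e.1 ≤ 3) →
      k ≤ (univ.filter fun e : Edge n => v ∈ e.1 ∧ ω e.1 = 4).card) :
    ∀ v, k ≤ deg (built (rule k M) σ (hit k σ)) v := by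
  classical
  intro v
  by_contra hcon
  push Not at hcon
  have hspec := hit_spec hkn σ
  -- an edge of level 5 before the hitting time
  obtain ⟨w, hw⟩ := h3
  obtain ⟨e5, he5, he5'⟩ : ∃ e : Edge n, pos σ e < hit k σ ∧ ¬ ω e.1 ≤ 4 := by
    by_contra hall
    push Not at hall
    have h5 := hspec w
    unfold deg at h5
    have h6 : ((G σ (hit k σ)).filter fun e => w ∈ e.1).card
        ≤ (univ.filter fun e : Edge n => w ∈ e.1 ∧ ω e.1 ≤ 4).card := by
      refine card_le_card fun e he => ?_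
      obtain ⟨h7, h8⟩ := mem_filter.mp he
      exact mem_filter.mpr ⟨mem_univ _, h8, hall e (mem_G.mp h7)⟩
    omega
  have hbefore : ∀ e : Edge n, ω e.1 ≤ 4 → pos σ e < hit k σ := by
    intro e he
    have : pos σ e < pos σ e5 := pos_lt_of_lev hm (lt_of_le_of_lt he (not_le.mp he5'))
    omega
  -- second phase at level at least 4
  have hiso : ∀ e ∈ isoE ω, rule k M e (Hb k M σ e) = true := by
    intro e he
    obtain ⟨_, h5, h6⟩ := mem_filter.mp he
    refine rule_of_both fun u hu => ?_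
    have : deg (Hb k M σ e) u = 0 := by
      unfold deg
      rw [card_eq_zero, filter_eq_empty_iff]
      intro e' h7 h8
      have h9 := (mem_built.mp h7).1
      have hne : e' ≠ e := by
        rintro rfl; exact absurd h9 (lt_irrefl _)
      have h10 := h6 e' hne ⟨u, hu, h8⟩
      have h11 := hm e' e h9.le
      exact absurd (h10.trans (h11.trans h5)) (by decide)
    omega
  have hphase : ∀ e : Edge n, 4 ≤ ω e.1 → M ≤ (Hb k M σ e).card := by
    intro e he
    refine h2.trans (card_le_card fun e' he' => ?_)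
    refine mem_built.mpr ⟨?_, hiso e' he'⟩
    have h5 := (mem_filter.mp he').2.1
    exact pos_lt_of_lev hm (lt_of_le_of_lt h5 (lt_of_lt_of_le (by decide) he))
  -- edges at `v` of level at least 4 before the hitting time are bought
  have hbuy : ∀ e : Edge n, v ∈ e.1 → 4 ≤ ω e.1 → pos σ e < hit k σ →
      e ∈ built (rule k M) σ (hit k σ) := by
    intro e hve he hpe
    refine mem_built.mpr ⟨hpe, ?_⟩
    unfold rule
    rw [decide_eq_true_iff]
    refine Or.inr ⟨hphase e he, v, hve, ?_⟩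
    exact lt_of_le_of_lt (deg_mono (built_mono _ _ hpe.le) v) hcon
  -- few edges of level 4 at `v`
  have hfew : (univ.filter fun e : Edge n => v ∈ e.1 ∧ ω e.1 = 4).card < k := by
    refine lt_of_le_of_lt ?_ hcon
    unfold deg
    refine card_le_card fun e he => ?_
    obtain ⟨_, h5, h6⟩ := mem_filter.mp he
    exact mem_filter.mpr ⟨hbuy e h5 h6.ge (hbefore e h6.le), h5⟩
  have hnone : ∀ e : Edge n, v ∈ e.1 → 4 ≤ ω e.1 := by
    intro e he
    by_contra hlt
    have h5 : ω e.1 ≤ 3 := by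
      revert hlt; generalize ω e.1 = z; revert z; decide
    have := h4 v ⟨e, he, h5⟩
    omega
  have h5 := hspec v
  have h6 : deg (G σ (hit k σ)) v ≤ deg (built (rule k M) σ (hit k σ)) v := by
    unfold deg
    refine card_le_card fun e he => ?_
    obtain ⟨h7, h8⟩ := mem_filter.mp he
    exact mem_filter.mpr ⟨hbuy e h8 (hnone e h8) (mem_G.mp h7), h8⟩
  omega

end Q299.MDB
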