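import Pool.Agent.Q299.MDB.Det

/-!
Gadgets: isolated trees on which Builder saves an edge.
-/

namespace Q299.MDB

open Finset

variable {n : ℕ}

/-- a gadget: centres `b`, `c` and leaf sets `A`, `X` -/
structure Gd (n : ℕ) where
  b : Fin n
  c : Fin n
  A : Finset (Fin n)
  X : Finset (Fin n)
deriving DecidableEq

namespace Gd

/-- the vertex set -/
def V (θ : Gd n) : Finset (Fin n) := {θ.b, θ.c} ∪ θ.A ∪ θ.X

/-- well-formed gadgets -/
structure Valid (k : ℕ) (θ : Gd n) : Prop where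
  bc : θ.b ≠ θ.c
  bA : θ.b ∉ θ.A
  bX : θ.b ∉ θ.X
  cA : θ.c ∉ θ.A
  cX : θ.c ∉ θ.X
  AX : Disjoint θ.A θ.X
  cardA : θ.A.card = k
  cardX : θ.X.card = k

open Classical in
/-- the levels allowed for the pair `e` -/
noncomputable def req (θ : Gd n) (e : Sym2 (Fin n)) : Finset (Fin 6) :=
  if e ∈ θ.A.image (fun a => s(θ.b, a)) then {0}
  else if e = s(θ.b, θ.c) then {1}
  else if e ∈ θ.X.image (fun x => s(θ.c, x)) then {2}
  else {3, 4, 5}

/-- pairs that touch the gadget -/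
def D (θ : Gd n) : Finset (Sym2 (Fin n)) :=
  univ.filter fun e => ¬ e.IsDiag ∧ ∃ v ∈ θ.V, v ∈ e

/-- the gadget is present, as an isolated tree with its edges in the right order -/
def ev (θ : Gd n) (ω : Sym2 (Fin n) → Fin 6) : Prop := ∀ e ∈ θ.D, ω e ∈ θ.req e

end Gd

open Gd

section facts

variable {k : ℕ} {θ : Gd n} {ω : Sym2 (Fin n) → Fin 6}

lemma mem_V {θ : Gd n} {v : Fin n} : v ∈ θ.V ↔ v = θ.b ∨ v = θ.c ∨ v ∈ θ.A ∨ v ∈ θ.X := by
  unfold Gd.V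
  simp only [mem_union, mem_insert, mem_singleton]
  tauto

lemma ev_pair (h : θ.ev ω) {u w : Fin n} (hu : u ∈ θ.V) (huw : u ≠ w) :
    ω s(u, w) ∈ θ.req s(u, w) := by
  refine h _ ?_
  unfold Gd.D
  rw [mem_filter, Sym2.mk_isDiag_iff]
  exact ⟨mem_univ _, huw, u, hu, Sym2.mem_mk_left u w⟩

lemma mem_imA {θ : Gd n} {u w : Fin n} : s(u, w) ∈ θ.A.image (fun a => s(θ.b, a)) ↔
    (u = θ.b ∧ w ∈ θ.A) ∨ (w = θ.b ∧ u ∈ θ.A) := by
  rw [mem_image]
  constructor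
  · rintro ⟨a, ha, h⟩
    rw [Sym2.eq_iff] at h
    rcases h with ⟨h1, h2⟩ | ⟨h1, h2⟩
    · exact Or.inl ⟨h1.symm, h2 ▸ ha⟩
    · exact Or.inr ⟨h1.symm, h2 ▸ ha⟩
  · rintro (⟨h1, h2⟩ | ⟨h1, h2⟩)
    · exact ⟨w, h2, by rw [h1]⟩
    · exact ⟨u, h2, by rw [h1]; exact Sym2.eq_swap⟩

lemma mem_imX {θ : Gd n} {u w : Fin n} : s(u, w) ∈ θ.X.image (fun a => s(θ.c, a)) ↔
    (u = θ.c ∧ w ∈ θ.X) ∨ (w = θ.c ∧ u ∈ θ.X) := by
  rw [mem_image]
  constructor
  · rintro ⟨a, ha, h⟩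
    rw [Sym2.eq_iff] at h
    rcases h with ⟨h1, h2⟩ | ⟨h1, h2⟩
    · exact Or.inl ⟨h1.symm, h2 ▸ ha⟩
    · exact Or.inr ⟨h1.symm, h2 ▸ ha⟩
  · rintro (⟨h1, h2⟩ | ⟨h1, h2⟩)
    · exact ⟨w, h2, by rw [h1]⟩
    · exact ⟨u, h2, by rw [h1]; exact Sym2.eq_swap⟩

lemma bc_iff {θ : Gd n} {u w : Fin n} : s(u, w) = s(θ.b, θ.c) ↔
    (u = θ.b ∧ w = θ.c) ∨ (u = θ.c ∧ w = θ.b) := Sym2.eq_iff

/-- levels at the centre `b` -/
lemma lev_b (hv : θ.Valid k) (h : θ.ev ω) {w : Fin n} (hw : θ.b ≠ w) :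
    (w ∈ θ.A ∧ ω s(θ.b, w) = 0) ∨ (w = θ.c ∧ ω s(θ.b, w) = 1) ∨
      (w ∉ θ.A ∧ w ≠ θ.c ∧ 3 ≤ ω s(θ.b, w)) := by
  have h1 := ev_pair h (mem_V.mpr (Or.inl rfl)) hw
  unfold Gd.req at h1
  split_ifs at h1 with ha hb hc
  · rw [mem_imA] at ha
    rcases ha with ⟨_, ha⟩ | ⟨ha, _⟩
    · exact Or.inl ⟨ha, mem_singleton.mp h1⟩
    · exact absurd ha.symm hw
  · rw [bc_iff] at hb
    rcases hb with ⟨_, hb⟩ | ⟨hb, _⟩
    · exact Or.inr (Or.inl ⟨hb, mem_singleton.mp h1⟩)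
    · exact absurd hb hv.bc
  · rw [mem_imX] at hc
    rcases hc with ⟨hc, _⟩ | ⟨_, hc⟩
    · exact absurd hc hv.bc
    · exact absurd hc hv.bX
  · refine Or.inr (Or.inr ⟨fun hA => ha (mem_imA.mpr (Or.inl ⟨rfl, hA⟩)),
      fun hC => hb (bc_iff.mpr (Or.inl ⟨rfl, hC⟩)), ?_⟩)
    revert h1; generalize ω s(θ.b, w) = z; revert z; decide

/-- levels at the centre `c` -/
lemma lev_c (hv : θ.Valid k) (h : θ.ev ω) {w : Fin n} (hw : θ.c ≠ w) :
    (w ∈ θ.X ∧ ω s(θ.c, w) = 2) ∨ (w = θ.b ∧ ω s(θ.c, w) = 1) ∨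
      (w ∉ θ.X ∧ w ≠ θ.b ∧ 3 ≤ ω s(θ.c, w)) := by
  have h1 := ev_pair h (mem_V.mpr (Or.inr (Or.inl rfl))) hw
  unfold Gd.req at h1
  split_ifs at h1 with ha hb hc
  · rw [mem_imA] at ha
    rcases ha with ⟨ha, _⟩ | ⟨_, ha⟩
    · exact absurd ha.symm hv.bc
    · exact absurd ha hv.cA
  · rw [bc_iff] at hb
    rcases hb with ⟨hb, _⟩ | ⟨_, hb⟩
    · exact absurd hb.symm hv.bc
    · exact Or.inr (Or.inl ⟨hb, mem_singleton.mp h1⟩)
  · rw [mem_imX] at hc
    rcases hc with ⟨_, hc⟩ | ⟨hc, _⟩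
    · exact Or.inl ⟨hc, mem_singleton.mp h1⟩
    · exact absurd hc.symm hw
  · refine Or.inr (Or.inr ⟨fun hX => hc (mem_imX.mpr (Or.inl ⟨rfl, hX⟩)),
      fun hB => hb (bc_iff.mpr (Or.inr ⟨rfl, hB⟩)), ?_⟩)
    revert h1; generalize ω s(θ.c, w) = z; revert z; decide

/-- levels at a leaf of `b` -/
lemma lev_A (hv : θ.Valid k) (h : θ.ev ω) {a w : Fin n} (ha : a ∈ θ.A) (hw : a ≠ w) :
    (w = θ.b ∧ ω s(a, w) = 0) ∨ (w ≠ θ.b ∧ 3 ≤ ω s(a, w)) := by
  have h1 := ev_pair h (mem_V.mpr (Or.inr (Or.inr (Or.inl ha)))) hw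
  unfold Gd.req at h1
  split_ifs at h1 with ha' hb hc
  · rw [mem_imA] at ha'
    rcases ha' with ⟨ha', _⟩ | ⟨ha', _⟩
    · exact absurd (ha' ▸ ha) hv.bA
    · exact Or.inl ⟨ha', mem_singleton.mp h1⟩
  · rw [bc_iff] at hb
    rcases hb with ⟨hb, _⟩ | ⟨hb, _⟩
    · exact absurd (hb ▸ ha) hv.bA
    · exact absurd (hb ▸ ha) hv.cA
  · rw [mem_imX] at hc
    rcases hc with ⟨hc, _⟩ | ⟨_, hc⟩
    · exact absurd (hc ▸ ha) hv.cA
    · exact absurd hc (disjoint_left.mp hv.AX ha)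
  · refine Or.inr ⟨fun hB => ha' (mem_imA.mpr (Or.inr ⟨hB, ha⟩)), ?_⟩
    revert h1; generalize ω s(a, w) = z; revert z; decide

/-- levels at a leaf of `c` -/
lemma lev_X (hv : θ.Valid k) (h : θ.ev ω) {x w : Fin n} (hx : x ∈ θ.X) (hw : x ≠ w) :
    (w = θ.c ∧ ω s(x, w) = 2) ∨ (w ≠ θ.c ∧ 3 ≤ ω s(x, w)) := by
  have h1 := ev_pair h (mem_V.mpr (Or.inr (Or.inr (Or.inr hx)))) hw
  unfold Gd.req at h1
  split_ifs at h1 with ha hb hc
  · rw [mem_imA] at ha
    rcases ha with ⟨ha, _⟩ | ⟨_, ha⟩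
    · exact absurd (ha ▸ hx) hv.bX
    · exact absurd hx (disjoint_left.mp hv.AX ha)
  · rw [bc_iff] at hb
    rcases hb with ⟨hb, _⟩ | ⟨hb, _⟩
    · exact absurd (hb ▸ hx) hv.bX
    · exact absurd (hb ▸ hx) hv.cX
  · rw [mem_imX] at hc
    rcases hc with ⟨hc, _⟩ | ⟨hc, _⟩
    · exact absurd (hc ▸ hx) hv.cX
    · exact Or.inl ⟨hc, mem_singleton.mp h1⟩
  · refine Or.inr ⟨fun hC => hc (mem_imX.mpr (Or.inr ⟨hC, hx⟩)), ?_⟩
    revert h1; generalize ω s(x, w) = z; revert z; decide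

lemma three_le_ne {z : Fin 6} (h : 3 ≤ z) : z ≠ 0 ∧ z ≠ 1 ∧ z ≠ 2 := by
  revert z; decide

/-- the centre `b` determines the gadget -/
lemma eq_of_b {θ' : Gd n} (hv : θ.Valid k) (h : θ.ev ω) (hv' : θ'.Valid k) (h' : θ'.ev ω)
    (hb : θ.b = θ'.b) : θ = θ' := by
  have hc : θ.c = θ'.c := by
    have h1 : ω s(θ.b, θ.c) = 1 := by
      rcases lev_b hv h hv.bc with h2 | h2 | h2
      · exact absurd h2.1 hv.cA
      · exact h2.2
      · exact absurd rfl h2.2.1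
    rcases lev_b hv' h' (show θ'.b ≠ θ.c from hb ▸ hv.bc) with h2 | h2 | h2
    · rw [← hb, h1] at h2; exact absurd h2.2 (by decide)
    · exact h2.1
    · rw [← hb, h1] at h2; exact absurd h2.2.2 (by decide)
  have hA : θ.A = θ'.A := by
    ext a
    constructor
    · intro ha
      have hne : θ.b ≠ a := fun h2 => hv.bA (h2 ▸ ha)
      have h1 : ω s(θ.b, a) = 0 := by
        rcases lev_b hv h hne with h2 | h2 | h2
        · exact h2.2
        · exact absurd (h2.1 ▸ ha) hv.cA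
        · exact absurd ha h2.1
      rcases lev_b hv' h' (show θ'.b ≠ a from hb ▸ hne) with h2 | h2 | h2
      · exact h2.1
      · rw [← hb, h1] at h2; exact absurd h2.2 (by decide)
      · rw [← hb, h1] at h2; exact absurd h2.2.2 (by decide)
    · intro ha
      have hne : θ'.b ≠ a := fun h2 => hv'.bA (h2 ▸ ha)
      have h1 : ω s(θ'.b, a) = 0 := by
        rcases lev_b hv' h' hne with h2 | h2 | h2
        · exact h2.2
        · exact absurd (h2.1 ▸ ha) hv'.cA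
        · exact absurd ha h2.1
      rcases lev_b hv h (show θ.b ≠ a from hb ▸ hne) with h2 | h2 | h2
      · exact h2.1
      · rw [hb, h1] at h2; exact absurd h2.2 (by decide)
      · rw [hb, h1] at h2; exact absurd h2.2.2 (by decide)
  have hX : θ.X = θ'.X := by
    ext a
    constructor
    · intro ha
      have hne : θ.c ≠ a := fun h2 => hv.cX (h2 ▸ ha)
      have h1 : ω s(θ.c, a) = 2 := by
        rcases lev_c hv h hne with h2 | h2 | h2
        · exact h2.2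
        · exact absurd (h2.1 ▸ ha) hv.bX
        · exact absurd ha h2.1
      rcases lev_c hv' h' (show θ'.c ≠ a from hc ▸ hne) with h2 | h2 | h2
      · exact h2.1
      · rw [← hc, h1] at h2; exact absurd h2.2 (by decide)
      · rw [← hc, h1] at h2; exact absurd h2.2.2 (by decide)
    · intro ha
      have hne : θ'.c ≠ a := fun h2 => hv'.cX (h2 ▸ ha)
      have h1 : ω s(θ'.c, a) = 2 := by
        rcases lev_c hv' h' hne with h2 | h2 | h2
        · exact h2.2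
        · exact absurd (h2.1 ▸ ha) hv'.bX
        · exact absurd ha h2.1
      rcases lev_c hv h (show θ.c ≠ a from hc ▸ hne) with h2 | h2 | h2
      · exact h2.1
      · rw [hc, h1] at h2; exact absurd h2.2 (by decide)
      · rw [hc, h1] at h2; exact absurd h2.2.2 (by decide)
  cases θ; cases θ'
  simp only at hb hc hA hX
  subst hb; subst hc; subst hA; subst hX
  rfl

/-- `v` has a pair of level `i` -/
def hasLev (ω : Sym2 (Fin n) → Fin 6) (v : Fin n) (i : Fin 6) : Prop := ∃ w, v ≠ w ∧ ω s(v, w) = i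

lemma type_b (hk : 1 ≤ k) (hv : θ.Valid k) (h : θ.ev ω) :
    hasLev ω θ.b 0 ∧ hasLev ω θ.b 1 := by
  constructor
  · obtain ⟨a, ha⟩ : θ.A.Nonempty := by rw [← card_pos, hv.cardA]; omega
    have hne : θ.b ≠ a := fun h2 => hv.bA (h2 ▸ ha)
    refine ⟨a, hne, ?_⟩
    rcases lev_b hv h hne with h2 | h2 | h2
    · exact h2.2
    · exact absurd (h2.1 ▸ ha) hv.cA
    · exact absurd ha h2.1
  · refine ⟨θ.c, hv.bc, ?_⟩
    rcases lev_b hv h hv.bc with h2 | h2 | h2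
    · exact absurd h2.1 hv.cA
    · exact h2.2
    · exact absurd rfl h2.2.1

lemma type_c (hv : θ.Valid k) (h : θ.ev ω) :
    ¬ hasLev ω θ.c 0 ∧ hasLev ω θ.c 1 := by
  constructor
  · rintro ⟨w, hw, hw'⟩
    rcases lev_c hv h hw with h2 | h2 | h2
    · rw [hw'] at h2; exact absurd h2.2 (by decide)
    · rw [hw'] at h2; exact absurd h2.2 (by decide)
    · rw [hw'] at h2; exact absurd h2.2.2 (by decide)
  · refine ⟨θ.b, hv.bc.symm, ?_⟩
    rcases lev_c hv h hv.bc.symm with h2 | h2 | h2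
    · exact absurd h2.1 hv.bX
    · exact h2.2
    · exact absurd rfl h2.2.1

lemma type_A (hv : θ.Valid k) (h : θ.ev ω) {a : Fin n} (ha : a ∈ θ.A) :
    hasLev ω a 0 ∧ ¬ hasLev ω a 1 := by
  have hne : a ≠ θ.b := fun h2 => hv.bA (h2 ▸ ha)
  constructor
  · refine ⟨θ.b, hne, ?_⟩
    rcases lev_A hv h ha hne with h2 | h2
    · exact h2.2
    · exact absurd rfl h2.1
  · rintro ⟨w, hw, hw'⟩
    rcases lev_A hv h ha hw with h2 | h2
    · rw [hw'] at h2; exact absurd h2.2 (by decide)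
    · rw [hw'] at h2; exact absurd h2.2 (by decide)

lemma type_X (hv : θ.Valid k) (h : θ.ev ω) {x : Fin n} (hx : x ∈ θ.X) :
    ¬ hasLev ω x 0 ∧ ¬ hasLev ω x 1 := by
  constructor
  · rintro ⟨w, hw, hw'⟩
    rcases lev_X hv h hx hw with h2 | h2
    · rw [hw'] at h2; exact absurd h2.2 (by decide)
    · rw [hw'] at h2; exact absurd h2.2 (by decide)
  · rintro ⟨w, hw, hw'⟩
    rcases lev_X hv h hx hw with h2 | h2
    · rw [hw'] at h2; exact absurd h2.2 (by decide)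
    · rw [hw'] at h2; exact absurd h2.2 (by decide)

/-- intersecting gadgets coincide -/
lemma eq_of_meet {θ' : Gd n} (hk : 1 ≤ k) (hv : θ.Valid k) (h : θ.ev ω) (hv' : θ'.Valid k)
    (h' : θ'.ev ω) {v : Fin n} (hvθ : v ∈ θ.V) (hvθ' : v ∈ θ'.V) : θ = θ' := by
  refine eq_of_b hv h hv' h' ?_
  have tb := type_b hk hv h
  have tc := type_c hv h
  have tb' := type_b hk hv' h'
  have tc' := type_c hv' h'
  have cc : θ.c = θ'.c → θ.b = θ'.b := by
    intro hc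
    have h1 : ω s(θ.c, θ.b) = 1 := by
      rcases lev_c hv h hv.bc.symm with h2 | h2 | h2
      · exact absurd h2.1 hv.bX
      · exact h2.2
      · exact absurd rfl h2.2.1
    rcases lev_c hv' h' (show θ'.c ≠ θ.b from hc ▸ hv.bc.symm) with h2 | h2 | h2
    · rw [← hc, h1] at h2; exact absurd h2.2 (by decide)
    · exact h2.1
    · rw [← hc, h1] at h2; exact absurd h2.2.2 (by decide)
  rcases mem_V.mp hvθ with rfl | rfl | ha | hx
  · rcases mem_V.mp hvθ' with h2 | h2 | h2 | h2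
    · exact h2
    · rw [← h2] at tc'; exact absurd tb.1 tc'.1
    · exact absurd tb.2 (type_A hv' h' h2).2
    · exact absurd tb.2 (type_X hv' h' h2).2
  · rcases mem_V.mp hvθ' with h2 | h2 | h2 | h2
    · rw [← h2] at tb'; exact absurd tb'.1 tc.1
    · exact cc h2
    · exact absurd tc.2 (type_A hv' h' h2).2
    · exact absurd tc.2 (type_X hv' h' h2).2
  · have ta := type_A hv h ha
    rcases mem_V.mp hvθ' with h2 | h2 | h2 | h2
    · rw [← h2] at tb'; exact absurd tb'.2 ta.2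
    · rw [← h2] at tc'; exact absurd tc'.2 ta.2
    · have hne : v ≠ θ.b := fun h3 => hv.bA (h3 ▸ ha)
      have h1 : ω s(v, θ.b) = 0 := by
        rcases lev_A hv h ha hne with h3 | h3
        · exact h3.2
        · exact absurd rfl h3.1
      rcases lev_A hv' h' h2 hne with h3 | h3
      · exact h3.1
      · rw [h1] at h3; exact absurd h3.2 (by decide)
    · exact absurd ta.1 (type_X hv' h' h2).1
  · have tx := type_X hv h hx
    rcases mem_V.mp hvθ' with h2 | h2 | h2 | h2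
    · rw [← h2] at tb'; exact absurd tb'.2 tx.2
    · rw [← h2] at tc'; exact absurd tc'.2 tx.2
    · exact absurd (type_A hv' h' h2).1 tx.1
    · apply cc
      have hne : v ≠ θ.c := fun h3 => hv.cX (h3 ▸ hx)
      have h1 : ω s(v, θ.c) = 2 := by
        rcases lev_X hv h hx hne with h3 | h3
        · exact h3.2
        · exact absurd rfl h3.1
      rcases lev_X hv' h' h2 hne with h3 | h3
      · exact h3.1
      · rw [h1] at h3; exact absurd h3.2 (by decide)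

end facts

end Q299.MDB
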