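import Pool.Agent.Q299.MDB.Prob

/-!
The number of gadgets: second moment.
-/

set_option linter.unusedSectionVars false

namespace Q299.MDB

open Finset Pool.Agent.Q299.PW Gd

variable {n k : ℕ} {x y q : ℝ}

/-- the weight of the levels allowed at `e` -/
noncomputable def Sw (x y q : ℝ) (θ : Gd n) (e : Sym2 (Fin n)) : ℝ :=
  ∑ a ∈ θ.req e, w6 x y q a

/-- the tree edges -/
def Gd.T (θ : Gd n) : Finset (Sym2 (Fin n)) :=
  θ.A.image (fun a => s(θ.b, a)) ∪ {s(θ.b, θ.c)} ∪ θ.X.image (fun x => s(θ.c, x))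

lemma mem_T {θ : Gd n} {e : Sym2 (Fin n)} : e ∈ θ.T ↔ e ∈ θ.A.image (fun a => s(θ.b, a)) ∨
    e = s(θ.b, θ.c) ∨ e ∈ θ.X.image (fun x => s(θ.c, x)) := by
  unfold Gd.T
  rw [mem_union, mem_union, mem_singleton, or_assoc]

lemma Sw_T {θ : Gd n} {e : Sym2 (Fin n)} (h : e ∈ θ.T) : Sw x y q θ e = x := by
  classical
  unfold Sw Gd.req
  rw [mem_T] at h
  split_ifs with h1 h2 h3
  · rw [sum_singleton]; rfl
  · rw [sum_singleton]; rfl
  · rw [sum_singleton]; rfl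
  · tauto

lemma Sw_notT {θ : Gd n} {e : Sym2 (Fin n)} (h : e ∉ θ.T) : Sw x y q θ e = 1 - 3 * x := by
  classical
  unfold Sw Gd.req
  rw [mem_T] at h
  push Not at h
  rw [if_neg h.1, if_neg h.2.1, if_neg h.2.2, sum_345]

lemma card_T {θ : Gd n} (hv : θ.Valid k) : θ.T.card ≤ 2 * k + 1 := by
  unfold Gd.T
  refine (card_union_le _ _).trans ?_
  have h1 := card_union_le (θ.A.image (fun a => s(θ.b, a))) {s(θ.b, θ.c)}
  have h2 : (θ.A.image (fun a => s(θ.b, a))).card ≤ k := card_image_le.trans hv.cardA.le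
  have h3 : (θ.X.image (fun x => s(θ.c, x))).card ≤ k := card_image_le.trans hv.cardX.le
  rw [card_singleton] at h1
  omega

lemma card_V {θ : Gd n} (hv : θ.Valid k) : θ.V.card ≤ 2 * k + 2 := by
  unfold Gd.V
  refine (card_union_le _ _).trans ?_
  have h1 := card_union_le ({θ.b, θ.c} : Finset (Fin n)) θ.A
  have h2 : ({θ.b, θ.c} : Finset (Fin n)).card ≤ 2 := card_le_two
  rw [hv.cardA] at h1
  rw [hv.cardX]
  omega

lemma T_sub_V {θ : Gd n} {e : Sym2 (Fin n)} (h : e ∈ θ.T) {v : Fin n} (hv : v ∈ e) : v ∈ θ.V := by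
  rw [mem_T] at h
  rw [mem_V]
  rcases h with h | h | h
  · obtain ⟨a, ha, rfl⟩ := mem_image.mp h
    rcases Sym2.mem_iff.mp hv with rfl | rfl
    · exact Or.inl rfl
    · exact Or.inr (Or.inr (Or.inl ha))
  · rw [h] at hv
    rcases Sym2.mem_iff.mp hv with rfl | rfl
    · exact Or.inl rfl
    · exact Or.inr (Or.inl rfl)
  · obtain ⟨a, ha, rfl⟩ := mem_image.mp h
    rcases Sym2.mem_iff.mp hv with rfl | rfl
    · exact Or.inr (Or.inl rfl)
    · exact Or.inr (Or.inr (Or.inr ha))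

lemma card_D {θ : Gd n} (hv : θ.Valid k) : θ.D.card ≤ (2 * k + 2) * n := by
  classical
  have h1 : θ.D ⊆ θ.V.biUnion fun v => star v := by
    intro e he
    unfold Gd.D at he
    obtain ⟨_, h2, v, h3, h4⟩ := mem_filter.mp he
    refine mem_biUnion.mpr ⟨v, h3, ?_⟩
    unfold star
    exact mem_filter.mpr ⟨mem_univ _, h2, h4⟩
  refine (card_le_card h1).trans (card_biUnion_le.trans ?_)
  calc _ ≤ ∑ _v ∈ θ.V, n := sum_le_sum fun v _ => by rw [card_star_eq]; omega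
    _ = θ.V.card * n := by rw [sum_const, smul_eq_mul]
    _ ≤ _ := Nat.mul_le_mul_right _ (card_V hv)

/-- the probability of a gadget -/
noncomputable def Pg (x y q : ℝ) (θ : Gd n) : ℝ := ∏ e ∈ θ.D, Sw x y q θ e

lemma Sw_nonneg (hx : 0 ≤ x) (hx3 : 3 * x ≤ 1) (θ : Gd n) (e : Sym2 (Fin n)) :
    0 ≤ Sw x y q θ e := by
  by_cases h : e ∈ θ.T
  · rw [Sw_T h]; exact hx
  · rw [Sw_notT h]; linarith

lemma Pg_ge {θ : Gd n} (hv : θ.Valid k) (hx : 0 ≤ x) (hx3 : 3 * x ≤ 1) :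
    x ^ (2 * k + 1) * (1 - 3 * x) ^ ((2 * k + 2) * n) ≤ Pg x y q θ := by
  classical
  have h1 : ∀ e ∈ θ.D, (if e ∈ θ.T then x else 1) * (1 - 3 * x) ≤ Sw x y q θ e := by
    intro e _
    split_ifs with h
    · rw [Sw_T h]; nlinarith
    · rw [Sw_notT h]; linarith
  have h2 : ∏ e ∈ θ.D, ((if e ∈ θ.T then x else 1) * (1 - 3 * x)) ≤ Pg x y q θ := by
    refine prod_le_prod (fun e _ => ?_) h1
    refine mul_nonneg ?_ (by linarith)
    split_ifs
    · exact hx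
    · norm_num
  refine le_trans ?_ h2
  rw [prod_mul_distrib, prod_const, prod_ite, prod_const, prod_const_one, mul_one]
  have hc : (θ.D.filter fun e => e ∈ θ.T).card ≤ 2 * k + 1 := by
    refine le_trans (card_le_card ?_) (card_T hv)
    intro e he
    exact (mem_filter.mp he).2
  have hx1 : x ≤ 1 := by linarith
  refine mul_le_mul (pow_le_pow_of_le_one hx hx1 hc)
    (pow_le_pow_of_le_one (by linarith) (by linarith) (card_D hv)) (by
      exact pow_nonneg (by linarith) _) (pow_nonneg hx _)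

lemma Pr_ev (θ : Gd n) : Pr (w6 x y q) (fun ω => θ.ev ω) = Pg x y q θ := by
  unfold Gd.ev Pg Sw
  exact Pr_forall_mem (w6_sum x y q) θ.D θ.req

lemma Pg_nonneg (hx : 0 ≤ x) (hx3 : 3 * x ≤ 1) (θ : Gd n) : 0 ≤ Pg x y q θ :=
  prod_nonneg fun e _ => Sw_nonneg hx hx3 θ e

lemma Pr_ev_and {θ θ' : Gd n} (hx : 0 ≤ x) (hy : 0 ≤ y) (hxy : 3 * x + y ≤ q) (hq : q ≤ 1)
    (hx3 : 3 * x < 1) (hk : 1 ≤ k) (hv : θ.Valid k) (hv' : θ'.Valid k) (hne : θ ≠ θ') :
    Pr (w6 x y q) (fun ω => θ.ev ω ∧ θ'.ev ω)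
      ≤ Pg x y q θ * Pg x y q θ' / (1 - 3 * x) ^ ((2 * k + 2) ^ 2) := by
  classical
  have hw := w6_nonneg hx hy hxy hq
  have hw1 := w6_sum x y q
  have hpos : 0 < 1 - 3 * x := by linarith
  have hRHS : 0 ≤ Pg x y q θ * Pg x y q θ' / (1 - 3 * x) ^ ((2 * k + 2) ^ 2) :=
    div_nonneg (mul_nonneg (Pg_nonneg hx hx3.le θ) (Pg_nonneg hx hx3.le θ')) (pow_nonneg hpos.le _)
  by_cases hdis : Disjoint θ.V θ'.V
  · have h1 := Pr_forall_mem hw1 (θ.D ∪ (θ'.D \ θ.D))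
      (fun e => if e ∈ θ.D then θ.req e else θ'.req e)
    have h2 : Pr (w6 x y q) (fun ω => θ.ev ω ∧ θ'.ev ω)
        ≤ ∏ e ∈ θ.D ∪ (θ'.D \ θ.D), ∑ a ∈ (if e ∈ θ.D then θ.req e else θ'.req e), w6 x y q a := by
      rw [← h1]
      refine Pr_mono hw fun ω h e he => ?_
      split_ifs with hD
      · exact h.1 e hD
      · rcases mem_union.mp he with h3 | h3
        · exact absurd h3 hD
        · exact h.2 e (mem_sdiff.mp h3).1
    refine h2.trans ?_
    rw [prod_union disjoint_sdiff]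
    have h3 : ∏ e ∈ θ.D, ∑ a ∈ (if e ∈ θ.D then θ.req e else θ'.req e), w6 x y q a
        = Pg x y q θ := by
      unfold Pg Sw
      exact prod_congr rfl fun e he => by rw [if_pos he]
    have h4 : ∏ e ∈ θ'.D \ θ.D, ∑ a ∈ (if e ∈ θ.D then θ.req e else θ'.req e), w6 x y q a
        = ∏ e ∈ θ'.D \ θ.D, Sw x y q θ' e := by
      unfold Sw
      exact prod_congr rfl fun e he => by rw [if_neg (mem_sdiff.mp he).2]
    rw [h3, h4]
    have h5 : Pg x y q θ' = (∏ e ∈ θ'.D \ θ.D, Sw x y q θ' e) *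
        ∏ e ∈ θ'.D ∩ θ.D, Sw x y q θ' e := by
      unfold Pg
      rw [← prod_union (disjoint_sdiff_inter _ _), sdiff_union_inter]
    have h6 : ∏ e ∈ θ'.D ∩ θ.D, Sw x y q θ' e = (1 - 3 * x) ^ (θ'.D ∩ θ.D).card := by
      rw [← prod_const]
      refine prod_congr rfl fun e he => Sw_notT fun hT => ?_
      obtain ⟨_, h7⟩ := mem_inter.mp he
      unfold Gd.D at h7
      obtain ⟨_, _, v, h8, h9⟩ := mem_filter.mp h7
      exact disjoint_left.mp hdis h8 (T_sub_V hT h9)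
    have h7 : (θ'.D ∩ θ.D).card ≤ (2 * k + 2) ^ 2 := by
      have h8 : θ'.D ∩ θ.D ⊆ (θ.V ×ˢ θ'.V).image fun t => s(t.1, t.2) := by
        intro e he
        obtain ⟨h9, h10⟩ := mem_inter.mp he
        unfold Gd.D at h9 h10
        obtain ⟨_, _, v', hv1, hv2⟩ := mem_filter.mp h9
        obtain ⟨_, _, v, hv3, hv4⟩ := mem_filter.mp h10
        have hvv : v ≠ v' := fun h => disjoint_left.mp hdis hv3 (h ▸ hv1)
        exact mem_image.mpr ⟨(v, v'), mem_product.mpr ⟨hv3, hv1⟩,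
          ((Sym2.mem_and_mem_iff hvv).mp ⟨hv4, hv2⟩).symm⟩
      refine (card_le_card h8).trans (card_image_le.trans ?_)
      rw [card_product, sq]
      exact Nat.mul_le_mul (card_V hv) (card_V hv')
    rw [le_div_iff₀ (pow_pos hpos _), mul_assoc]
    refine mul_le_mul_of_nonneg_left ?_ (Pg_nonneg hx hx3.le θ)
    rw [h5, h6]
    refine mul_le_mul_of_nonneg_left ?_ (prod_nonneg fun e _ => Sw_nonneg hx hx3.le θ' e)
    exact pow_le_pow_of_le_one hpos.le (by linarith) h7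
  · rw [not_disjoint_iff] at hdis
    obtain ⟨v, h1, h2⟩ := hdis
    have h3 : Pr (w6 x y q) (fun ω => θ.ev ω ∧ θ'.ev ω) ≤ 0 := by
      have h4 : Pr (w6 x y q) (fun ω => θ.ev ω ∧ θ'.ev ω)
          ≤ Ex (w6 x y q) (fun _ : Sym2 (Fin n) → Fin 6 => 0) := by
        refine Pr_le_Ex hw (fun _ => le_refl _) fun ω h => ?_
        exact absurd (eq_of_meet hk hv h.1 hv' h.2 h1 h2) hne
      rwa [Ex_const hw1] at h4
    exact h3.trans hRHS

open Classical in
/-- number of gadgets present -/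
noncomputable def Zc (Θ : Finset (Gd n)) (ω : Sym2 (Fin n) → Fin 6) : ℝ :=
  ∑ θ ∈ Θ, if θ.ev ω then 1 else 0

lemma prob_Z {Θ : Finset (Gd n)} (hx : 0 < x) (hy : 0 ≤ y) (hxy : 3 * x + y ≤ q) (hq : q ≤ 1)
    (hx3 : 3 * x < 1) (hk : 1 ≤ k) (hΘ : ∀ θ ∈ Θ, θ.Valid k) {μ : ℝ} (hμ : 0 < μ)
    (hμle : μ ≤ Θ.card * (x ^ (2 * k + 1) * (1 - 3 * x) ^ ((2 * k + 2) * n))) :
    Pr (w6 x y q) (fun ω => Zc Θ ω ≤ μ / 2)
      ≤ 4 * (1 / μ + (1 / (1 - 3 * x) ^ ((2 * k + 2) ^ 2) - 1)) := by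
  classical
  have hw := w6_nonneg hx.le hy hxy hq
  have hw1 := w6_sum x y q
  have hpos : 0 < 1 - 3 * x := by linarith
  obtain ⟨m, hm⟩ : ∃ m : ℝ, m = ∑ θ ∈ Θ, Pg x y q θ := ⟨_, rfl⟩
  have hμm : μ ≤ m := by
    refine hμle.trans ?_
    rw [hm, ← nsmul_eq_mul]
    exact card_nsmul_le_sum _ _ _ fun θ hθ => Pg_ge (hΘ θ hθ) hx.le hx3.le
  have hm0 : 0 < m := hμ.trans_le hμm
  have hmean : Ex (w6 x y q) (Zc Θ) = m := by
    have : (Zc Θ : (Sym2 (Fin n) → Fin 6) → ℝ)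
        = fun ω => ∑ θ ∈ Θ, if θ.ev ω then (1 : ℝ) else 0 := rfl
    rw [this, Ex_sum, hm]
    exact sum_congr rfl fun θ _ => Pr_ev θ
  obtain ⟨Q, hQ⟩ : ∃ Q : ℝ, Q = (1 - 3 * x) ^ ((2 * k + 2) ^ 2) := ⟨_, rfl⟩
  have hQ0 : 0 < Q := by rw [hQ]; exact pow_pos hpos _
  have hsq : Ex (w6 x y q) (fun ω => Zc Θ ω ^ 2) ≤ m + m ^ 2 / Q := by
    have h1 : (fun ω : Sym2 (Fin n) → Fin 6 => Zc Θ ω ^ 2) = fun ω =>
        ∑ θ ∈ Θ, ∑ θ' ∈ Θ, if θ.ev ω ∧ θ'.ev ω then (1 : ℝ) else 0 := by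
      funext ω
      unfold Zc
      rw [sq, sum_mul_sum]
      refine sum_congr rfl fun θ _ => sum_congr rfl fun θ' _ => ?_
      by_cases h1 : θ.ev ω <;> by_cases h2 : θ'.ev ω <;> simp [h1, h2]
    rw [h1, Ex_sum]
    have h2 : ∀ θ ∈ Θ, Ex (w6 x y q) (fun ω => ∑ θ' ∈ Θ, if θ.ev ω ∧ θ'.ev ω then (1 : ℝ) else 0)
        ≤ Pg x y q θ + Pg x y q θ * m / Q := by
      intro θ hθ
      rw [Ex_sum, ← add_sum_erase Θ _ hθ]
      refine add_le_add (le_of_eq ?_) ?_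
      · rw [← Pr_ev θ]
        unfold Pr
        congr 1
        funext ω
        simp
      · calc _ ≤ ∑ θ' ∈ Θ.erase θ, Pg x y q θ * Pg x y q θ' / Q := by
              refine sum_le_sum fun θ' hθ' => ?_
              have := Pr_ev_and hx.le hy hxy hq hx3 hk (hΘ θ hθ)
                (hΘ θ' (mem_of_mem_erase hθ')) (ne_of_mem_erase hθ').symm
              rw [hQ]
              refine (le_of_eq ?_).trans this
              unfold Pr
              congr 1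
              funext ω
              congr
          _ ≤ ∑ θ' ∈ Θ, Pg x y q θ * Pg x y q θ' / Q :=
              sum_le_sum_of_subset_of_nonneg (erase_subset _ _) fun θ' _ _ =>
                div_nonneg (mul_nonneg (Pg_nonneg hx.le hx3.le θ) (Pg_nonneg hx.le hx3.le θ')) hQ0.le
          _ = _ := by rw [← sum_div, ← mul_sum, hm]
    refine (sum_le_sum h2).trans (le_of_eq ?_)
    rw [sum_add_distrib, ← hm, ← sum_div, ← sum_mul, ← hm]
    ring
  have hCheb := Pr_le_half hw hw1 (Zc Θ) hm0 hmean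
  refine (Pr_mono hw fun ω h => ?_).trans (hCheb.trans ?_)
  · linarith
  · have h5 : Ex (w6 x y q) (fun ω => Zc Θ ω ^ 2) / m ^ 2 ≤ 1 / μ + 1 / Q := by
      calc _ ≤ 1 / m + 1 / Q := by
            rw [div_le_iff₀ (by positivity)]
            refine hsq.trans (le_of_eq ?_)
            field_simp
        _ ≤ _ := by
            have := one_div_le_one_div_of_le hμ hμm
            linarith
    rw [hQ] at h5
    linarith

/-! ### a family of gadgets -/

lemma exists_gadgets (k n m : ℕ) (hm : 4 * m ≤ n) : ∃ Θ : Finset (Gd n),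
    (∀ θ ∈ Θ, θ.Valid k) ∧ Θ.card = m * (m * (m.choose k * m.choose k)) := by
  classical
  obtain ⟨V1, h1, c1⟩ := exists_subset_card_eq (s := (univ : Finset (Fin n))) (n := m)
    (by rw [card_univ, Fintype.card_fin]; omega)
  obtain ⟨V2, h2, c2⟩ := exists_subset_card_eq (s := (univ \ V1 : Finset (Fin n))) (n := m) (by
    rw [card_sdiff_of_subset h1, card_univ, Fintype.card_fin, c1]; omega)
  obtain ⟨V3, h3, c3⟩ := exists_subset_card_eq (s := (univ \ (V1 ∪ V2) : Finset (Fin n))) (n := m) (by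
    rw [card_sdiff_of_subset (subset_univ _), card_univ, Fintype.card_fin]
    have := card_union_le V1 V2
    omega)
  obtain ⟨V4, h4, c4⟩ := exists_subset_card_eq (s := (univ \ (V1 ∪ V2 ∪ V3) : Finset (Fin n)))
    (n := m) (by
    rw [card_sdiff_of_subset (subset_univ _), card_univ, Fintype.card_fin]
    have := card_union_le V1 V2
    have := card_union_le (V1 ∪ V2) V3
    omega)
  have d12 : ∀ v, v ∈ V2 → v ∉ V1 := fun v hv => (mem_sdiff.mp (h2 hv)).2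
  have d3 : ∀ v, v ∈ V3 → v ∉ V1 ∧ v ∉ V2 := fun v hv => by
    have := (mem_sdiff.mp (h3 hv)).2
    rw [mem_union] at this; tauto
  have d4 : ∀ v, v ∈ V4 → v ∉ V1 ∧ v ∉ V2 ∧ v ∉ V3 := fun v hv => by
    have := (mem_sdiff.mp (h4 hv)).2
    rw [mem_union, mem_union] at this; tauto
  refine ⟨(V1 ×ˢ V2 ×ˢ V3.powersetCard k ×ˢ V4.powersetCard k).image
    (fun t => (⟨t.1, t.2.1, t.2.2.1, t.2.2.2⟩ : Gd n)), ?_, ?_⟩
  · intro θ hθ
    obtain ⟨⟨b, c, A, X⟩, ht, rfl⟩ := mem_image.mp hθ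
    simp only [mem_product, mem_powersetCard] at ht
    obtain ⟨hb, hc, ⟨hA, cA⟩, hX, cX⟩ := ht
    exact ⟨fun (h : b = c) => d12 c hc (h ▸ hb), fun h => (d3 b (hA h)).1 hb, fun h => (d4 b (hX h)).1 hb,
      fun h => (d3 c (hA h)).2 hc, fun h => (d4 c (hX h)).2.1 hc,
      disjoint_left.mpr fun a ha ha' => (d4 a (hX ha')).2.2 (hA ha), cA, cX⟩
  · rw [card_image_of_injective, card_product, card_product, card_product, card_powersetCard,
      card_powersetCard, c1, c2, c3, c4]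
    rintro ⟨b, c, A, X⟩ ⟨b', c', A', X'⟩ h
    simp only [Gd.mk.injEq] at h
    obtain ⟨rfl, rfl, rfl, rfl⟩ := h
    rfl

end Q299.MDB
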