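import Pool.Agent.Q299.MDB.Det2
import Pool.Agent.Q299.PW.Order
import Pool.Agent.Q299.PW.Indep

/-!
Probability bounds, for independent levels on the pairs.
-/

set_option linter.unusedSectionVars false

namespace Q299.MDB

open Finset Pool.Agent.Q299.PW

variable {n k : ℕ}

/-- weights of the levels -/
noncomputable def w6 (x y q : ℝ) : Fin 6 → ℝ := ![x, x, x, y, q - 3 * x - y, 1 - q]

lemma w6_sum (x y q : ℝ) : ∑ a, w6 x y q a = 1 := by
  unfold w6
  rw [Fin.sum_univ_six]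
  simp
  ring

lemma w6_nonneg {x y q : ℝ} (hx : 0 ≤ x) (hy : 0 ≤ y) (hxy : 3 * x + y ≤ q) (hq : q ≤ 1) :
    ∀ a, 0 ≤ w6 x y q a := by
  intro a
  unfold w6
  fin_cases a <;> simp <;> linarith

lemma sum_012 (x y q : ℝ) : ∑ a ∈ ({0, 1, 2} : Finset (Fin 6)), w6 x y q a = 3 * x := by
  rw [sum_insert (by decide), sum_insert (by decide), sum_singleton]
  unfold w6; simp; ring

lemma sum_0123 (x y q : ℝ) : ∑ a ∈ ({0, 1, 2, 3} : Finset (Fin 6)), w6 x y q a = 3 * x + y := by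
  rw [sum_insert (by decide), sum_insert (by decide), sum_insert (by decide), sum_singleton]
  unfold w6; simp; ring

lemma sum_01234 (x y q : ℝ) : ∑ a ∈ ({0, 1, 2, 3, 4} : Finset (Fin 6)), w6 x y q a = q := by
  rw [sum_insert (by decide), sum_insert (by decide), sum_insert (by decide),
    sum_insert (by decide), sum_singleton]
  unfold w6; simp; ring

lemma sum_4 (x y q : ℝ) : ∑ a ∈ ({4} : Finset (Fin 6)), w6 x y q a = q - 3 * x - y := by
  rw [sum_singleton]
  unfold w6; simp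

lemma sum_345 (x y q : ℝ) : ∑ a ∈ ({3, 4, 5} : Finset (Fin 6)), w6 x y q a = 1 - 3 * x := by
  rw [sum_insert (by decide), sum_insert (by decide), sum_singleton]
  unfold w6; simp; ring

/-- pairs of distinct vertices -/
def prs (n : ℕ) : Finset (Sym2 (Fin n)) := univ.filter fun e => ¬ e.IsDiag

/-- pairs at a vertex -/
def star (v : Fin n) : Finset (Sym2 (Fin n)) := univ.filter fun e => ¬ e.IsDiag ∧ v ∈ e

lemma card_prs (n : ℕ) : (prs n).card = n * (n - 1) / 2 := by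
  have := Sym2.card_subtype_not_diag (α := Fin n)
  rw [Fintype.card_fin] at this
  rw [← Nat.choose_two_right, ← this, Fintype.card_subtype]
  rfl

lemma star_eq (v : Fin n) : star v = (univ.erase v).image fun u => s(v, u) := by
  ext e
  unfold star
  simp only [mem_filter, mem_univ, true_and, mem_image, mem_erase, and_true]
  constructor
  · rintro ⟨h1, h2⟩
    obtain ⟨w, rfl⟩ := Sym2.mem_iff_exists.mp h2
    rw [Sym2.mk_isDiag_iff] at h1
    exact ⟨w, fun h => h1 h.symm, rfl⟩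
  · rintro ⟨u, hu, rfl⟩
    rw [Sym2.mk_isDiag_iff]
    exact ⟨fun h => hu h.symm, Sym2.mem_mk_left v u⟩

lemma card_star_eq (v : Fin n) : (star v).card = n - 1 := by
  rw [star_eq, card_image_of_injective _ (fun a b h => Sym2.congr_right.mp h),
    card_erase_of_mem (mem_univ v), card_univ, Fintype.card_fin]

lemma mem_star {v u : Fin n} (h : v ≠ u) : s(v, u) ∈ star v := by
  unfold star
  rw [mem_filter, Sym2.mk_isDiag_iff]
  exact ⟨mem_univ _, h, Sym2.mem_mk_left v u⟩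

lemma mem_star' {v u : Fin n} (h : v ≠ u) : s(v, u) ∈ star u := by
  rw [Sym2.eq_swap]; exact mem_star h.symm

lemma card_star_erase {v u : Fin n} (h : v ≠ u) : ((star v).erase s(v, u)).card = n - 2 := by
  rw [card_erase_of_mem (mem_star h), card_star_eq]; omega

/-- counting over the edge subtype -/
lemma card_edge (P : Sym2 (Fin n) → Prop) [DecidablePred P] :
    (univ.filter fun e : Edge n => P e.1).card = ((prs n).filter P).card := by
  rw [← card_map ⟨Subtype.val, Subtype.val_injective⟩]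
  congr 1
  ext e
  unfold prs
  simp only [mem_map, mem_filter, mem_univ, true_and, Function.Embedding.coeFn_mk]
  constructor
  · rintro ⟨e', h, rfl⟩
    exact ⟨e'.2, h⟩
  · rintro ⟨h1, h2⟩
    exact ⟨⟨e, h1⟩, h2, rfl⟩

lemma card_edge_star (v : Fin n) (P : Sym2 (Fin n) → Prop) [DecidablePred P] :
    (univ.filter fun e : Edge n => v ∈ e.1 ∧ P e.1).card = ((star v).filter P).card := by
  rw [card_edge fun e => v ∈ e ∧ P e]
  congr 1
  ext e
  unfold prs star
  simp only [mem_filter, mem_univ, true_and]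
  tauto

lemma le2_iff {z : Fin 6} : z ≤ 2 ↔ z ∈ ({0, 1, 2} : Finset (Fin 6)) := by revert z; decide
lemma le3_iff {z : Fin 6} : z ≤ 3 ↔ z ∈ ({0, 1, 2, 3} : Finset (Fin 6)) := by revert z; decide
lemma le4_iff {z : Fin 6} : z ≤ 4 ↔ z ∈ ({0, 1, 2, 3, 4} : Finset (Fin 6)) := by revert z; decide
lemma eq4_iff {z : Fin 6} : z = 4 ↔ z ∈ ({4} : Finset (Fin 6)) := by revert z; decide

/-- probability that all coordinates of `D` are in prescribed sets -/
lemma Pr_forall_mem {ι α : Type*} [Fintype ι] [DecidableEq ι] [Fintype α] [DecidableEq α]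
    {w : α → ℝ} (hw1 : ∑ a, w a = 1) (D : Finset ι) (R : ι → Finset α) :
    Pr w (fun ω : ι → α => ∀ i ∈ D, ω i ∈ R i) = ∏ i ∈ D, ∑ a ∈ R i, w a := by
  classical
  unfold Pr
  have h1 : (fun ω : ι → α => @ite ℝ (∀ i ∈ D, ω i ∈ R i) (Classical.propDecidable _) 1 0)
      = fun ω => ∏ i ∈ D, (fun i a => if a ∈ R i then (1 : ℝ) else 0) i (ω i) := by
    funext ω
    split_ifs with h
    · symm
      exact prod_eq_one fun i hi => if_pos (h i hi)
    · symm
      push Not at h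
      obtain ⟨i, hi, hn⟩ := h
      exact prod_eq_zero hi (if_neg hn)
  rw [h1, Ex_prod_on hw1 D (fun i a => if a ∈ R i then (1 : ℝ) else 0)]
  refine prod_congr rfl fun i _ => ?_
  simp

/-! ### levels at most 2 -/

lemma prob_F1 {x y q : ℝ} (hx : 0 ≤ x) (hy : 0 ≤ y) (hxy : 3 * x + y ≤ q) (hq : q ≤ 1) {r : ℝ}
    {M : ℕ} (hrM : r ≤ M) :
    Pr (w6 x y q) (fun ω : Sym2 (Fin n) → Fin 6 =>
      ¬ (univ.filter fun e : Edge n => ω e.1 ≤ 2).card ≤ M)
      ≤ Real.exp (((prs n).card : ℝ) * ((3 * x) * (Real.exp 1 - 1)) - r) := by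
  have h1 := Pr_cnt_ge (w6_nonneg hx hy hxy hq) (w6_sum x y q) ({0, 1, 2} : Finset (Fin 6))
    (prs n) (r := r)
  rw [sum_012] at h1
  refine (Pr_mono (w6_nonneg hx hy hxy hq) fun ω h => ?_).trans h1
  rw [card_edge (fun e => ω e ≤ 2), not_le] at h
  unfold cnt
  have h2 : ((prs n).filter fun e => ω e ≤ 2) = (prs n).filter fun e =>
      ω e ∈ ({0, 1, 2} : Finset (Fin 6)) := filter_congr fun e _ => le2_iff
  rw [h2] at h
  have h3 : (M : ℝ) ≤ ((prs n).filter fun e => ω e ∈ ({0, 1, 2} : Finset (Fin 6))).card := by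
    exact_mod_cast h.le
  exact hrM.trans h3

/-! ### isolated edges -/

/-- triples giving two adjacent edges of level at most `3` -/
def trip (ω : Sym2 (Fin n) → Fin 6) : Finset (Fin n × Fin n × Fin n) :=
  univ.filter fun t => t.1 ≠ t.2.1 ∧ t.1 ≠ t.2.2 ∧ t.2.1 ≠ t.2.2 ∧ ω s(t.1, t.2.1) ≤ 3 ∧
    ω s(t.1, t.2.2) ≤ 3

lemma cnt_le_iso (ω : Sym2 (Fin n) → Fin 6) :
    cnt ({0, 1, 2, 3} : Finset (Fin 6)) (prs n) ω ≤ (isoE ω).card + (trip ω).card := by
  classical
  have h0 : cnt ({0, 1, 2, 3} : Finset (Fin 6)) (prs n) ω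
      = (univ.filter fun e : Edge n => ω e.1 ≤ 3).card := by
    rw [card_edge (fun e => ω e ≤ 3)]
    unfold cnt
    congr 1
    exact filter_congr fun e _ => le3_iff.symm
  rw [h0]
  have h1 : (univ.filter fun e : Edge n => ω e.1 ≤ 3) ⊆ isoE ω ∪
      ((univ.filter fun e : Edge n => ω e.1 ≤ 3) \ isoE ω) := by
    intro e he
    by_cases h : e ∈ isoE ω
    · exact mem_union_left _ h
    · exact mem_union_right _ (mem_sdiff.mpr ⟨he, h⟩)
  refine (card_le_card h1).trans ((card_union_le _ _).trans (Nat.add_le_add_left ?_ _))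
  -- the others inject into the triples
  have h2 : ∀ e : {e // e ∈ (univ.filter fun e : Edge n => ω e.1 ≤ 3) \ isoE ω},
      ∃ t : Fin n × Fin n × Fin n, t ∈ trip ω ∧ e.1.1 = s(t.1, t.2.1) := by
    rintro ⟨e, he⟩
    obtain ⟨h3, h4⟩ := mem_sdiff.mp he
    have h5 := (mem_filter.mp h3).2
    unfold isoE at h4
    rw [mem_filter] at h4
    push Not at h4
    obtain ⟨e', hne, ⟨v, hv, hv'⟩, hlt⟩ := h4 (mem_univ _) h5
    obtain ⟨u, hu, heu⟩ := exists_other hv
    obtain ⟨w, hw, hew⟩ := exists_other hv'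
    refine ⟨(v, u, w), ?_, heu⟩
    unfold trip
    rw [mem_filter]
    refine ⟨mem_univ _, hu, hw, ?_, ?_, ?_⟩
    · intro h
      simp only at h
      exact hne (Subtype.ext (by rw [hew, heu, h]))
    · simp only; rw [← heu]; exact h5
    · simp only; rw [← hew]
      revert hlt; generalize ω e'.1 = z; revert z; decide
  choose t ht1 ht2 using h2
  rw [← card_attach]
  refine card_le_card_of_injOn t (fun e _ => mem_coe.mpr (ht1 e)) fun e _ e' _ h => ?_
  apply Subtype.ext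
  apply Subtype.ext
  rw [ht2 e, ht2 e', h]

lemma Ex_trip {x y q : ℝ} (hx : 0 ≤ x) (hy : 0 ≤ y) (hxy : 3 * x + y ≤ q) (hq : q ≤ 1) :
    Ex (w6 x y q) (fun ω : Sym2 (Fin n) → Fin 6 => ((trip ω).card : ℝ))
      ≤ (n : ℝ) ^ 3 * (3 * x + y) ^ 2 := by
  classical
  have hw := w6_nonneg hx hy hxy hq
  have h1 : ∀ ω : Sym2 (Fin n) → Fin 6, ((trip ω).card : ℝ) = ∑ t : Fin n × Fin n × Fin n,
      (if t.1 ≠ t.2.1 ∧ t.1 ≠ t.2.2 ∧ t.2.1 ≠ t.2.2 ∧ ω s(t.1, t.2.1) ≤ 3 ∧
        ω s(t.1, t.2.2) ≤ 3 then (1 : ℝ) else 0) := by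
    intro ω
    unfold trip
    rw [sum_boole]
  simp_rw [h1]
  rw [Ex_sum]
  calc _ ≤ ∑ _t : Fin n × Fin n × Fin n, (3 * x + y) ^ 2 := by
        refine sum_le_sum fun t _ => ?_
        by_cases hd : t.1 ≠ t.2.1 ∧ t.1 ≠ t.2.2 ∧ t.2.1 ≠ t.2.2
        · have hne : s(t.1, t.2.1) ≠ s(t.1, t.2.2) := fun h => hd.2.2 (Sym2.congr_right.mp h)
          have h2 := Pr_forall_mem (w6_sum x y q) ({s(t.1, t.2.1), s(t.1, t.2.2)} :
            Finset (Sym2 (Fin n))) (fun _ => ({0, 1, 2, 3} : Finset (Fin 6)))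
          rw [prod_pair hne, sum_0123, ← sq] at h2
          rw [← h2]
          unfold Pr
          refine Ex_mono hw fun ω => ?_
          split_ifs with h3 h4
          · exact le_refl _
          · exfalso
            apply h4
            intro i hi
            rw [mem_insert, mem_singleton] at hi
            rcases hi with rfl | rfl
            · exact le3_iff.mp h3.2.2.2.1
            · exact le3_iff.mp h3.2.2.2.2
          · norm_num
          · norm_num
        · have : (fun ω : Sym2 (Fin n) → Fin 6 => (if t.1 ≠ t.2.1 ∧ t.1 ≠ t.2.2 ∧ t.2.1 ≠ t.2.2 ∧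
              ω s(t.1, t.2.1) ≤ 3 ∧ ω s(t.1, t.2.2) ≤ 3 then (1 : ℝ) else 0)) = fun _ => 0 := by
            funext ω
            rw [if_neg]
            rintro ⟨a, b, c, _⟩
            exact hd ⟨a, b, c⟩
          rw [this, Ex_const (w6_sum x y q)]
          positivity
    _ = _ := by
        rw [sum_const, card_univ, nsmul_eq_mul, Fintype.card_prod, Fintype.card_prod,
          Fintype.card_fin]
        push_cast
        ring

lemma prob_F2 {x y q : ℝ} (hx : 0 ≤ x) (hy : 0 ≤ y) (hxy : 3 * x + y ≤ q) (hq : q ≤ 1)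
    {r s : ℝ} (hs : 0 < s) {M : ℕ} (hM : (M : ℝ) ≤ r - s) :
    Pr (w6 x y q) (fun ω : Sym2 (Fin n) → Fin 6 => ¬ M ≤ (isoE ω).card)
      ≤ Real.exp (r - ((prs n).card : ℝ) * ((3 * x + y) * (1 - Real.exp (-1))))
        + (n : ℝ) ^ 3 * (3 * x + y) ^ 2 / s := by
  have hw := w6_nonneg hx hy hxy hq
  have h1 := Pr_cnt_le hw (w6_sum x y q) ({0, 1, 2, 3} : Finset (Fin 6)) (prs n) (t := 1) (r := r)
    (by norm_num)
  rw [sum_0123, one_mul] at h1
  have h2 := Pr_ge_le hw (f := fun ω : Sym2 (Fin n) → Fin 6 => ((trip ω).card : ℝ))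
    (fun ω => Nat.cast_nonneg _) hs
  have h3 : Pr (w6 x y q) (fun ω : Sym2 (Fin n) → Fin 6 => ¬ M ≤ (isoE ω).card)
      ≤ Pr (w6 x y q) (fun ω : Sym2 (Fin n) → Fin 6 =>
        (cnt ({0, 1, 2, 3} : Finset (Fin 6)) (prs n) ω : ℝ) ≤ r ∨ s ≤ ((trip ω).card : ℝ)) := by
    refine Pr_mono hw fun ω h => ?_
    by_contra hcon
    push Not at hcon
    apply h
    have h4 : ((cnt ({0, 1, 2, 3} : Finset (Fin 6)) (prs n) ω : ℕ) : ℝ)
        ≤ (isoE ω).card + (trip ω).card := by exact_mod_cast cnt_le_iso ω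
    have h5 : (M : ℝ) ≤ (isoE ω).card := by linarith [hcon.1, hcon.2]
    exact_mod_cast h5
  refine h3.trans ((Pr_or_le hw _ _).trans (add_le_add h1 (h2.trans ?_)))
  exact div_le_div_of_nonneg_right (Ex_trip hx hy hxy hq) hs.le

/-! ### vertices of small degree -/

lemma Bn_succ_ge {m : ℕ} {p : ℝ} (h0 : 0 ≤ p) (h1 : p ≤ 1) (k : ℕ) :
    (1 - p) * Bn m p k ≤ Bn (m + 1) p k := by
  unfold Bn
  rw [mul_sum]
  refine sum_le_sum fun j _ => ?_
  have hp : 0 ≤ 1 - p := by linarith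
  rcases Nat.lt_or_ge m j with h | h
  · rw [Nat.choose_eq_zero_of_lt h]
    have : 0 ≤ ((m + 1).choose j : ℝ) * p ^ j * (1 - p) ^ (m + 1 - j) := by positivity
    simpa using this
  · have h2 : m + 1 - j = (m - j) + 1 := by omega
    rw [h2, pow_succ]
    have h3 : (m.choose j : ℝ) ≤ ((m + 1).choose j : ℝ) := by
      exact_mod_cast Nat.choose_le_choose j (Nat.le_succ m)
    calc (1 - p) * ((m.choose j : ℝ) * p ^ j * (1 - p) ^ (m - j))
        = (m.choose j : ℝ) * (p ^ j * ((1 - p) ^ (m - j) * (1 - p))) := by ring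
      _ ≤ ((m + 1).choose j : ℝ) * (p ^ j * ((1 - p) ^ (m - j) * (1 - p))) :=
          mul_le_mul_of_nonneg_right h3 (by positivity)
      _ = _ := by ring

/-- number of vertices of degree less than `k` in the levels at most `4` -/
noncomputable def Yc (k : ℕ) (ω : Sym2 (Fin n) → Fin 6) : ℝ :=
  ∑ v : Fin n, if cnt ({0, 1, 2, 3, 4} : Finset (Fin 6)) (star v) ω < k then 1 else 0

lemma cnt_mono {ι α : Type*} [DecidableEq α] {L : Finset α} {D D' : Finset ι}
    (h : D ⊆ D') (ω : ι → α) : cnt L D ω ≤ cnt L D' ω :=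
  card_le_card (filter_subset_filter _ h)

lemma cnt_congr {ι α : Type*} [DecidableEq α] {L : Finset α} {D : Finset ι} {ω ω' : ι → α}
    (h : ∀ i ∈ D, ω i = ω' i) : cnt L D ω = cnt L D ω' := by
  unfold cnt
  congr 1
  exact filter_congr fun i hi => by rw [h i hi]

lemma star_inter {v u : Fin n} (h : v ≠ u) :
    Disjoint ((star v).erase s(v, u)) ((star u).erase s(v, u)) := by
  rw [disjoint_left]
  intro e he he'
  obtain ⟨h1, h2⟩ := mem_erase.mp he
  obtain ⟨_, h3⟩ := mem_erase.mp he'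
  unfold star at h2 h3
  have h4 := (mem_filter.mp h2).2.2
  have h5 := (mem_filter.mp h3).2.2
  exact h1 ((Sym2.mem_and_mem_iff h).mp ⟨h4, h5⟩)

lemma prob_F3 {x y q : ℝ} (hx : 0 ≤ x) (hy : 0 ≤ y) (hxy : 3 * x + y ≤ q) (hq : q < 1)
    (hn : 2 ≤ n) (hpos : 0 < (n : ℝ) * Bn (n - 1) q k) :
    Pr (w6 x y q) (fun ω : Sym2 (Fin n) → Fin 6 =>
      ¬ ∃ v, (univ.filter fun e : Edge n => v ∈ e.1 ∧ ω e.1 ≤ 4).card < k)
      ≤ 4 * (1 / (n * Bn (n - 1) q k) + (1 / (1 - q) ^ 2 - 1)) := by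
  classical
  have hw := w6_nonneg hx hy hxy hq.le
  have hw1 := w6_sum x y q
  have hq0 : 0 ≤ q := by linarith
  set L : Finset (Fin 6) := {0, 1, 2, 3, 4} with hL
  obtain ⟨μ, hμ⟩ : ∃ μ : ℝ, μ = n * Bn (n - 1) q k := ⟨_, rfl⟩
  rw [← hμ] at hpos ⊢
  have hone : ∀ v : Fin n, Ex (w6 x y q) (fun ω : Sym2 (Fin n) → Fin 6 =>
      if cnt L (star v) ω < k then (1 : ℝ) else 0) = Bn (n - 1) q k := by
    intro v
    have h1 := Pr_cnt_lt hw1 L (star v) k
    rw [sum_01234, card_star_eq] at h1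
    rw [← h1]
    unfold Pr
    congr 1
    funext ω
    congr
  have hmean : Ex (w6 x y q) (Yc (n := n) k) = μ := by
    have : Yc (n := n) k = fun ω => ∑ v : Fin n, if cnt L (star v) ω < k then (1 : ℝ) else 0 := rfl
    rw [this, Ex_sum, sum_congr rfl fun v _ => hone v, sum_const, card_univ, Fintype.card_fin,
      nsmul_eq_mul, hμ]
  -- second moment
  have hq' : 0 < 1 - q := by linarith
  have hpair : ∀ v u : Fin n, v ≠ u → Ex (w6 x y q) (fun ω : Sym2 (Fin n) → Fin 6 =>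
      (if cnt L (star v) ω < k then (1 : ℝ) else 0) * (if cnt L (star u) ω < k then 1 else 0))
      ≤ (Bn (n - 2) q k) ^ 2 := by
    intro v u hvu
    have hcard1 : ((star v).erase s(v, u)).card = n - 2 := card_star_erase hvu
    have hcard2 : ((star u).erase s(v, u)).card = n - 2 := by
      rw [Sym2.eq_swap]; exact card_star_erase hvu.symm
    have h1 := Pr_cnt_lt hw1 L ((star v).erase s(v, u)) k
    have h2 := Pr_cnt_lt hw1 L ((star u).erase s(v, u)) k
    rw [sum_01234, hcard1] at h1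
    rw [sum_01234, hcard2] at h2
    rw [sq]
    nth_rewrite 1 [← h1]
    rw [← h2]
    rw [← Pr_and_indep hw1 ((star v).erase s(v, u))]
    · unfold Pr
      refine Ex_mono hw fun ω => ?_
      split_ifs with h3 h4 h5 <;> norm_num
      exact h5 ⟨lt_of_le_of_lt (cnt_mono (erase_subset _ _) ω) h3,
        lt_of_le_of_lt (cnt_mono (erase_subset _ _) ω) h4⟩
    · intro ω ω' h
      rw [cnt_congr h]
    · intro ω ω' h
      rw [cnt_congr fun i hi => h i fun hc => disjoint_left.mp (star_inter hvu) hc hi]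
  have hsq : Ex (w6 x y q) (fun ω => Yc (n := n) k ω ^ 2) ≤ μ + μ ^ 2 / (1 - q) ^ 2 := by
    have h1 : (fun ω : Sym2 (Fin n) → Fin 6 => Yc (n := n) k ω ^ 2) = fun ω =>
        ∑ v : Fin n, ∑ u : Fin n, (if cnt L (star v) ω < k then (1 : ℝ) else 0) *
          (if cnt L (star u) ω < k then 1 else 0) := by
      funext ω
      unfold Yc
      rw [sq, sum_mul_sum]
    rw [h1, Ex_sum]
    have h2 : ∀ v : Fin n, Ex (w6 x y q) (fun ω => ∑ u : Fin n,
        (if cnt L (star v) ω < k then (1 : ℝ) else 0) * (if cnt L (star u) ω < k then 1 else 0))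
        ≤ Bn (n - 1) q k + n * (Bn (n - 2) q k) ^ 2 := by
      intro v
      rw [Ex_sum, ← add_sum_erase univ _ (mem_univ v)]
      refine add_le_add ?_ ?_
      · refine le_of_eq ?_
        rw [← hone v]
        congr 1
        funext ω
        split_ifs <;> norm_num
      · calc _ ≤ ∑ _u ∈ univ.erase v, (Bn (n - 2) q k) ^ 2 :=
              sum_le_sum fun u hu => hpair v u (ne_of_mem_erase hu).symm
          _ ≤ _ := by
              rw [sum_const, nsmul_eq_mul]
              refine mul_le_mul_of_nonneg_right ?_ (sq_nonneg _)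
              have := card_erase_le (s := (univ : Finset (Fin n))) (a := v)
              rw [card_univ, Fintype.card_fin] at this
              exact_mod_cast this
    refine (sum_le_sum fun v _ => h2 v).trans ?_
    rw [sum_const, card_univ, Fintype.card_fin, nsmul_eq_mul]
    have h3 : (1 - q) * Bn (n - 2) q k ≤ Bn (n - 1) q k := by
      have := Bn_succ_ge (m := n - 2) hq0 hq.le k
      rwa [show n - 2 + 1 = n - 1 by omega] at this
    have h4 : (Bn (n - 2) q k) ^ 2 ≤ (Bn (n - 1) q k) ^ 2 / (1 - q) ^ 2 := by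
      rw [le_div_iff₀ (by positivity), ← mul_pow, mul_comm]
      exact pow_le_pow_left₀ (mul_nonneg hq'.le (Bn_nonneg hq0 hq.le)) h3 2
    calc (n : ℝ) * (Bn (n - 1) q k + n * (Bn (n - 2) q k) ^ 2)
        = μ + (n : ℝ) ^ 2 * (Bn (n - 2) q k) ^ 2 := by rw [hμ]; ring
      _ ≤ μ + (n : ℝ) ^ 2 * ((Bn (n - 1) q k) ^ 2 / (1 - q) ^ 2) := by gcongr
      _ = _ := by rw [hμ]; ring
  have hCheb := Pr_le_half hw hw1 (Yc (n := n) k) hpos hmean
  refine (Pr_mono hw fun ω h => ?_).trans (hCheb.trans ?_)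
  · push Not at h
    have : Yc (n := n) k ω = 0 := by
      unfold Yc
      refine sum_eq_zero fun v _ => if_neg ?_
      rw [not_lt]
      refine (h v).trans (le_of_eq ?_)
      rw [card_edge_star v (fun e => ω e ≤ 4)]
      unfold cnt
      congr 1
      exact filter_congr fun e _ => le4_iff
    rw [this]; positivity
  · have h5 : Ex (w6 x y q) (fun ω => Yc (n := n) k ω ^ 2) / μ ^ 2 ≤ 1 / μ + 1 / (1 - q) ^ 2 := by
      rw [div_le_iff₀ (by positivity)]
      refine hsq.trans (le_of_eq ?_)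
      field_simp
    linarith

lemma prob_F4 {x y q : ℝ} (hx : 0 ≤ x) (hy : 0 ≤ y) (hxy : 3 * x + y ≤ q) (hq : q ≤ 1) :
    Pr (w6 x y q) (fun ω : Sym2 (Fin n) → Fin 6 =>
      ¬ ∀ v, (∃ e : Edge n, v ∈ e.1 ∧ ω e.1 ≤ 3) →
        k ≤ (univ.filter fun e : Edge n => v ∈ e.1 ∧ ω e.1 = 4).card)
      ≤ (n : ℝ) ^ 2 * ((3 * x + y) * Bn (n - 2) (q - 3 * x - y) k) := by
  classical
  have hw := w6_nonneg hx hy hxy hq
  have hw1 := w6_sum x y q
  have h1 : ∀ t : Fin n × Fin n, t.1 ≠ t.2 → Pr (w6 x y q) (fun ω : Sym2 (Fin n) → Fin 6 =>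
      (∀ i ∈ ({s(t.1, t.2)} : Finset (Sym2 (Fin n))), ω i ∈ ({0, 1, 2, 3} : Finset (Fin 6))) ∧
        cnt ({4} : Finset (Fin 6)) ((star t.1).erase s(t.1, t.2)) ω < k)
      = (3 * x + y) * Bn (n - 2) (q - 3 * x - y) k := by
    intro t ht
    rw [Pr_and_indep hw1 {s(t.1, t.2)}]
    · rw [Pr_forall_mem hw1 {s(t.1, t.2)} (fun _ => {0, 1, 2, 3}), prod_singleton, sum_0123,
        Pr_cnt_lt hw1, sum_4, card_star_erase ht]
    · intro ω ω' h
      constructor
      · intro h2 i hi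
        rw [← h i hi]; exact h2 i hi
      · intro h2 i hi
        rw [h i hi]; exact h2 i hi
    · intro ω ω' h
      rw [cnt_congr fun i hi => h i fun hc => (mem_erase.mp hi).1 (mem_singleton.mp hc)]
  have h2 : Pr (w6 x y q) (fun ω : Sym2 (Fin n) → Fin 6 =>
      ¬ ∀ v, (∃ e : Edge n, v ∈ e.1 ∧ ω e.1 ≤ 3) →
        k ≤ (univ.filter fun e : Edge n => v ∈ e.1 ∧ ω e.1 = 4).card)
      ≤ Pr (w6 x y q) (fun ω : Sym2 (Fin n) → Fin 6 =>
        ∃ t ∈ (univ.filter fun t : Fin n × Fin n => t.1 ≠ t.2),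
        (∀ i ∈ ({s(t.1, t.2)} : Finset (Sym2 (Fin n))), ω i ∈ ({0, 1, 2, 3} : Finset (Fin 6))) ∧
        cnt ({4} : Finset (Fin 6)) ((star t.1).erase s(t.1, t.2)) ω < k) := by
    refine Pr_mono hw fun ω h => ?_
    push Not at h
    obtain ⟨v, ⟨e, hve, he⟩, hlt⟩ := h
    obtain ⟨u, hu, heu⟩ := exists_other hve
    refine ⟨(v, u), mem_filter.mpr ⟨mem_univ _, hu⟩, ?_, ?_⟩
    · intro i hi
      rw [mem_singleton] at hi
      rw [hi, ← heu]
      exact le3_iff.mp he
    · refine lt_of_le_of_lt (cnt_mono (erase_subset _ _) ω) ?_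
      refine lt_of_le_of_lt (le_of_eq ?_) hlt
      rw [card_edge_star v (fun e => ω e = 4)]
      unfold cnt
      congr 1
      exact filter_congr fun e _ => eq4_iff.symm
  have hnn : 0 ≤ (3 * x + y) * Bn (n - 2) (q - 3 * x - y) k :=
    mul_nonneg (by linarith) (Bn_nonneg (by linarith) (by linarith))
  refine h2.trans ((Pr_exists_le hw _ _).trans ?_)
  rw [sum_congr rfl fun t ht => h1 t (mem_filter.mp ht).2, sum_const, nsmul_eq_mul]
  refine mul_le_mul_of_nonneg_right ?_ hnn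
  have h3 : (univ.filter fun t : Fin n × Fin n => t.1 ≠ t.2).card ≤ n ^ 2 := by
    refine (card_filter_le _ _).trans (le_of_eq ?_)
    rw [card_univ, Fintype.card_prod, Fintype.card_fin, sq]
  exact_mod_cast h3

end Q299.MDB
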